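import Mathlib
import Pool.Agent.Q281.USB.Unr

set_option autoImplicit false

/-!
# The field of totally `p`-adic numbers, through valuation subrings
-/

namespace Pool.Agent.Q281.UN

open Pool.Agent.Q281.USB
open Pool.Agent.H58P (Qb qb_isIntegral)

/-- `V` is above `p` -/
def Above (p : ℕ) (V : ValuationSubring Qb) : Prop := V.valuation (p : Qb) < 1

variable {p : ℕ} (V : ValuationSubring Qb)

lemma val_p_ne (hp : p.Prime) : V.valuation (p : Qb) ≠ 0 := by
  rw [Valuation.ne_zero_iff]
  exact_mod_cast hp.ne_zero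

/-- the values of the integers -/
lemma val_natCast_zpow (hp : p.Prime) (hV : Above p V) (m : ℕ) (hm : m ≠ 0) :
    ∃ k : ℕ, V.valuation (m : Qb) = V.valuation (p : Qb) ^ k := by
  obtain ⟨k, n, hn, rfl⟩ := Nat.exists_eq_pow_mul_and_not_dvd hm p hp.ne_one
  refine ⟨k, ?_⟩
  push_cast
  rw [map_mul, map_pow, val_natCast_eq_one V hV ((Nat.Prime.coprime_iff_not_dvd hp).mpr hn),
    mul_one]

lemma val_natAbs (m : ℤ) : V.valuation ((m.natAbs : ℕ) : Qb) = V.valuation (m : Qb) := by
  obtain ⟨n, rfl | rfl⟩ := m.eq_nat_or_neg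
  · rw [Int.natAbs_natCast, Int.cast_natCast]
  · rw [Int.natAbs_neg, Int.natAbs_natCast, Int.cast_neg, Int.cast_natCast, Valuation.map_neg]

lemma exists_den (x : Qb) : ∃ m : ℕ, m ≠ 0 ∧ IsIntegral ℤ ((m : Qb) * x) := by
  have h1 : IsAlgebraic ℤ x := by
    have h2 : IsAlgebraic ℚ x := Algebra.IsAlgebraic.isAlgebraic x
    rwa [← IsFractionRing.isAlgebraic_iff ℤ ℚ Qb] at h2
  obtain ⟨m, hm, h⟩ := h1.exists_integral_multiple
  obtain ⟨n, rfl | rfl⟩ := m.eq_nat_or_neg
  · refine ⟨n, by simpa using hm, ?_⟩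
    rw [zsmul_eq_mul, Int.cast_natCast] at h
    exact h
  · refine ⟨n, by simpa using hm, ?_⟩
    rw [zsmul_eq_mul, Int.cast_neg, Int.cast_natCast, neg_mul] at h
    simpa using h.neg

/-- the value of an algebraic number is bounded by a power of the value of `1 / p` -/
lemma exists_bound (hp : p.Prime) (hV : Above p V) (x : Qb) :
    ∃ K : ℕ, V.valuation (p : Qb) ^ K * V.valuation x ≤ 1 := by
  obtain ⟨m, hm, h⟩ := exists_den x
  obtain ⟨k, hk⟩ := val_natCast_zpow V hp hV m hm
  refine ⟨k, ?_⟩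
  rw [← hk, ← map_mul]
  exact val_le_one_of_isIntegral V h

lemma val_ratCast (hp : p.Prime) (hV : Above p V) (a : ℚ) (ha : V.valuation (a : Qb) < 1) :
    V.valuation (a : Qb) ≤ V.valuation (p : Qb) := by
  rcases eq_or_ne a 0 with rfl | ha0
  · simp
  obtain ⟨k, hk⟩ := val_natCast_zpow V hp hV a.num.natAbs (by simpa using ha0)
  obtain ⟨l, hl⟩ := val_natCast_zpow V hp hV a.den a.den_ne_zero
  have hnum : V.valuation ((a.num : ℤ) : Qb) = V.valuation (p : Qb) ^ k := by
    rw [← hk, val_natAbs]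
  have h1 : V.valuation (a : Qb) * V.valuation (p : Qb) ^ l = V.valuation (p : Qb) ^ k := by
    rw [← hl, ← hnum, ← map_mul]
    congr 1
    have := Rat.mul_den_eq_num a
    exact_mod_cast congrArg (fun q : ℚ => (q : Qb)) this
  have hp0 := val_p_ne V hp
  have hpl : V.valuation (p : Qb) ^ l ≠ 0 := pow_ne_zero _ hp0
  have hlt : l < k := by
    by_contra hcon
    push Not at hcon
    have h2 : V.valuation (p : Qb) ^ l ≤ V.valuation (p : Qb) ^ k :=
      pow_le_pow_right_of_le_one' hV.le hcon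
    rw [← h1] at h2
    have h3 : V.valuation (a : Qb) * V.valuation (p : Qb) ^ l < V.valuation (p : Qb) ^ l := by
      calc _ < 1 * V.valuation (p : Qb) ^ l :=
            mul_lt_mul_of_pos_right ha (zero_lt_iff.mpr hpl)
        _ = _ := one_mul _
    exact absurd h2 (not_le.mpr h3)
  obtain ⟨j, rfl⟩ : ∃ j, k = l + 1 + j := ⟨k - l - 1, by omega⟩
  have h2 : V.valuation (a : Qb) = V.valuation (p : Qb) * V.valuation (p : Qb) ^ j := by
    have h3 : V.valuation (p : Qb) ^ (l + 1 + j) = V.valuation (p : Qb) * V.valuation (p : Qb) ^ j *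
        V.valuation (p : Qb) ^ l := by
      rw [pow_add, pow_add, pow_one]
      ac_rfl
    rw [h3] at h1
    exact mul_right_cancel₀ hpl h1
  rw [h2]
  exact mul_le_of_le_one_right' (pow_le_one₀ zero_le hV.le)

/-- `x` is `p`-adic at `V` -/
def Padic (p : ℕ) (V : ValuationSubring Qb) (x : Qb) : Prop :=
  ∀ N : ℕ, ∃ a : ℚ, V.valuation (x - (a : Qb)) ≤ V.valuation (p : Qb) ^ N

lemma Padic.add {x y : Qb} (hx : Padic p V x) (hy : Padic p V y) : Padic p V (x + y) := by
  intro N
  obtain ⟨a, ha⟩ := hx N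
  obtain ⟨b, hb⟩ := hy N
  refine ⟨a + b, ?_⟩
  have e : x + y - ((a + b : ℚ) : Qb) = (x - a) + (y - b) := by push_cast; ring
  rw [e]
  exact (V.valuation.map_add _ _).trans (max_le ha hb)

lemma padic_ratCast (a : ℚ) : Padic p V (a : Qb) := fun N => ⟨a, by simp⟩

lemma Padic.mul (hp : p.Prime) (hV : Above p V) {x y : Qb} (hx : Padic p V x)
    (hy : Padic p V y) : Padic p V (x * y) := by
  intro N
  obtain ⟨K, hK⟩ := exists_bound V hp hV x
  obtain ⟨b, hb⟩ := hy (N + K)
  obtain ⟨L, hL⟩ := exists_bound V hp hV (b : Qb)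
  obtain ⟨a, ha⟩ := hx (N + L)
  refine ⟨a * b, ?_⟩
  have e : x * y - ((a * b : ℚ) : Qb) = x * (y - b) + (b : Qb) * (x - a) := by push_cast; ring
  have h1 : V.valuation (x * (y - b)) ≤ V.valuation (p : Qb) ^ N := by
    rw [map_mul]
    calc V.valuation x * V.valuation (y - b) ≤ V.valuation x * V.valuation (p : Qb) ^ (N + K) :=
          mul_le_mul_right hb _
      _ = (V.valuation (p : Qb) ^ K * V.valuation x) * V.valuation (p : Qb) ^ N := by
          rw [pow_add]
          ac_rfl
      _ ≤ 1 * V.valuation (p : Qb) ^ N := mul_le_mul_left hK _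
      _ = _ := one_mul _
  have h2 : V.valuation ((b : Qb) * (x - a)) ≤ V.valuation (p : Qb) ^ N := by
    rw [map_mul]
    calc V.valuation (b : Qb) * V.valuation (x - a) ≤
          V.valuation (b : Qb) * V.valuation (p : Qb) ^ (N + L) :=
          mul_le_mul_right ha _
      _ = (V.valuation (p : Qb) ^ L * V.valuation (b : Qb)) * V.valuation (p : Qb) ^ N := by
          rw [pow_add]
          ac_rfl
      _ ≤ 1 * V.valuation (p : Qb) ^ N := mul_le_mul_left hL _
      _ = _ := one_mul _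
  rw [e]
  exact (V.valuation.map_add _ _).trans (max_le h1 h2)

lemma Padic.inv (hp : p.Prime) (hV : Above p V) {x : Qb} (hx : Padic p V x) :
    Padic p V x⁻¹ := by
  rcases eq_or_ne x 0 with rfl | hx0
  · rw [inv_zero]
    have := padic_ratCast (p := p) V 0
    simpa using this
  intro N
  obtain ⟨K, hK⟩ := exists_bound V hp hV x⁻¹
  have hp0 := val_p_ne V hp
  have hvx : V.valuation x ≠ 0 := (Valuation.ne_zero_iff _).mpr hx0
  have hK' : V.valuation (p : Qb) ^ K ≤ V.valuation x := by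
    rw [map_inv₀] at hK
    calc V.valuation (p : Qb) ^ K = V.valuation (p : Qb) ^ K * (V.valuation x)⁻¹ * V.valuation x := by
          rw [inv_mul_cancel_right₀ hvx]
      _ ≤ 1 * V.valuation x := mul_le_mul_left hK _
      _ = _ := one_mul _
  obtain ⟨a, ha⟩ := hx (N + 2 * K + 1)
  have hlt : V.valuation (x - a) < V.valuation x := by
    refine lt_of_le_of_lt ha (lt_of_lt_of_le ?_ hK')
    calc V.valuation (p : Qb) ^ (N + 2 * K + 1) ≤ V.valuation (p : Qb) ^ (K + 1) :=
          pow_le_pow_right_of_le_one' hV.le (by omega)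
      _ = V.valuation (p : Qb) * V.valuation (p : Qb) ^ K := by rw [pow_succ']
      _ < 1 * V.valuation (p : Qb) ^ K :=
          mul_lt_mul_of_pos_right hV (zero_lt_iff.mpr (pow_ne_zero _ hp0))
      _ = _ := one_mul _
  have hva : V.valuation (a : Qb) = V.valuation x := by
    have e : (a : Qb) = x - (x - a) := by ring
    rw [e]
    exact V.valuation.map_sub_eq_of_lt_left hlt
  have ha0 : (a : Qb) ≠ 0 := by
    rw [← Valuation.ne_zero_iff V.valuation, hva]
    exact hvx
  refine ⟨a⁻¹, ?_⟩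
  have e : x⁻¹ - ((a⁻¹ : ℚ) : Qb) = -((x - a) * (x⁻¹ * (a : Qb)⁻¹)) := by
    push_cast
    field_simp
    ring
  rw [e, Valuation.map_neg, map_mul, map_mul, map_inv₀, map_inv₀, hva]
  have h3 : V.valuation (p : Qb) ^ K * (V.valuation x)⁻¹ ≤ 1 := by
    rw [map_inv₀] at hK
    exact hK
  calc V.valuation (x - a) * ((V.valuation x)⁻¹ * (V.valuation x)⁻¹)
      ≤ V.valuation (p : Qb) ^ (N + 2 * K + 1) * ((V.valuation x)⁻¹ * (V.valuation x)⁻¹) :=
        mul_le_mul_left ha _
    _ = V.valuation (p : Qb) ^ (N + 1) * ((V.valuation (p : Qb) ^ K * (V.valuation x)⁻¹) *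
        (V.valuation (p : Qb) ^ K * (V.valuation x)⁻¹)) := by
        have : N + 2 * K + 1 = (N + 1) + K + K := by ring
        rw [this, pow_add, pow_add]
        ac_rfl
    _ ≤ V.valuation (p : Qb) ^ (N + 1) * (1 * 1) := mul_le_mul_right (mul_le_mul' h3 h3) _
    _ = V.valuation (p : Qb) ^ (N + 1) := by rw [mul_one, mul_one]
    _ ≤ V.valuation (p : Qb) ^ N := pow_le_pow_right_of_le_one' hV.le (Nat.le_succ N)

/-- the field of totally `p`-adic numbers -/
noncomputable def TP (p : ℕ) (hp : p.Prime) : IntermediateField ℚ Qb where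
  carrier := {x | ∀ V : ValuationSubring Qb, Above p V → Padic p V x}
  mul_mem' := fun hx hy V hV => (hx V hV).mul V hp hV (hy V hV)
  add_mem' := fun hx hy V hV => (hx V hV).add V (hy V hV)
  algebraMap_mem' := fun a V _ => by
    have := padic_ratCast (p := p) V a
    simpa using this
  inv_mem' := fun _ hx V hV => (hx V hV).inv V hp hV

lemma mem_TP (hp : p.Prime) (x : Qb) :
    x ∈ TP p hp ↔ ∀ V : ValuationSubring Qb, Above p V → Padic p V x := Iff.rfl

/-- values of the totally `p`-adic numbers -/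
lemma val_le_of_lt (hp : p.Prime) (hV : Above p V) {x : Qb} (hx : x ∈ TP p hp)
    (h : V.valuation x < 1) : V.valuation x ≤ V.valuation (p : Qb) := by
  obtain ⟨a, ha⟩ := hx V hV 1
  rw [pow_one] at ha
  have h1 : V.valuation (a : Qb) < 1 := by
    have e : (a : Qb) = x - (x - a) := by ring
    rw [e]
    refine lt_of_le_of_lt (V.valuation.map_sub _ _) (max_lt h (lt_of_le_of_lt ha hV))
  have h2 := val_ratCast V hp hV a h1
  have e : x = (x - a) + a := by ring
  rw [e]
  exact (V.valuation.map_add _ _).trans (max_le ha h2)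

/-- residues of the totally `p`-adic numbers -/
lemma exists_residue (hp : p.Prime) (hV : Above p V) {x : Qb} (hx : x ∈ TP p hp)
    (h : V.valuation x ≤ 1) : ∃ a : Fin p, V.valuation (x - ((a : ℕ) : Qb)) < 1 := by
  obtain ⟨b, hb⟩ := hx V hV 1
  rw [pow_one] at hb
  have hb1 : V.valuation (b : Qb) ≤ 1 := by
    have e : (b : Qb) = x - (x - b) := by ring
    rw [e]
    exact (V.valuation.map_sub _ _).trans (max_le h (hb.trans hV.le))
  -- the denominator is prime to `p`
  have hden : p.Coprime b.den := by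
    rw [Nat.Prime.coprime_iff_not_dvd hp]
    intro hdvd
    have hnum : ¬ p ∣ b.num.natAbs := by
      intro h2
      have := Nat.dvd_gcd h2 hdvd
      rw [b.reduced.gcd_eq_one] at this
      exact hp.one_lt.ne' (Nat.dvd_one.mp this)
    have h2 : V.valuation ((b.num : ℤ) : Qb) = 1 := by
      have h3 := val_natCast_eq_one V hV ((Nat.Prime.coprime_iff_not_dvd hp).mpr hnum)
      rw [val_natAbs] at h3
      exact h3
    have h3 : V.valuation ((b.den : ℕ) : Qb) < 1 := by
      obtain ⟨c, hc⟩ := hdvd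
      rw [hc]
      push_cast
      rw [map_mul]
      exact mul_lt_one_of_lt_of_le hV (val_le_one_of_isIntegral V (isIntegral_natCast c))
    have h4 : V.valuation (b : Qb) * V.valuation ((b.den : ℕ) : Qb) = 1 := by
      rw [← h2, ← map_mul]
      congr 1
      have := Rat.mul_den_eq_num b
      exact_mod_cast congrArg (fun q : ℚ => (q : Qb)) this
    have h5 : V.valuation (b : Qb) * V.valuation ((b.den : ℕ) : Qb) < 1 := by
      rw [mul_comm]
      exact mul_lt_one_of_lt_of_le h3 hb1
    rw [h4] at h5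
    exact lt_irrefl _ h5
  have : NeZero p := ⟨hp.ne_zero⟩
  -- an integer congruent to `b`
  obtain ⟨c, hc⟩ : ∃ c : ℤ, (p : ℤ) ∣ b.num - c * b.den := by
    have hcop : IsCoprime (p : ℤ) (b.den : ℤ) := Nat.isCoprime_iff_coprime.mpr hden
    obtain ⟨u, v, huv⟩ := hcop
    refine ⟨b.num * v, ⟨b.num * u, ?_⟩⟩
    have : b.num - b.num * v * (b.den : ℤ) = b.num * (1 - v * (b.den : ℤ)) := by ring
    rw [this, ← huv]
    ring
  set a : ℤ := c % p with ha
  have ha0 : 0 ≤ a := Int.emod_nonneg _ (by exact_mod_cast hp.ne_zero)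
  have hap : a < p := Int.emod_lt_of_pos _ (by exact_mod_cast hp.pos)
  refine ⟨⟨a.toNat, by omega⟩, ?_⟩
  have hac : (p : ℤ) ∣ c - a := Int.dvd_self_sub_emod
  have hd : (p : ℤ) ∣ b.num - a * b.den := by
    have : b.num - a * b.den = (b.num - c * b.den) + (c - a) * b.den := by ring
    rw [this]
    exact dvd_add hc (Dvd.dvd.mul_right hac _)
  have hdenV : V.valuation ((b.den : ℕ) : Qb) = 1 := val_natCast_eq_one V hV hden
  have h1 : V.valuation ((b : Qb) - (a : Qb)) < 1 := by
    have h2 : V.valuation (((b : Qb) - (a : Qb)) * ((b.den : ℕ) : Qb)) < 1 := by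
      have h3 : ((b : Qb) - (a : Qb)) * ((b.den : ℕ) : Qb) = ((b.num - a * b.den : ℤ) : Qb) := by
        have h4 := Rat.mul_den_eq_num b
        have h5 : (b : Qb) * ((b.den : ℕ) : Qb) = ((b.num : ℤ) : Qb) := by
          exact_mod_cast congrArg (fun q : ℚ => (q : Qb)) h4
        rw [sub_mul, h5]
        push_cast
        ring
      rw [h3]
      obtain ⟨e, he⟩ := hd
      rw [he]
      push_cast
      rw [map_mul]
      exact mul_lt_one_of_lt_of_le hV (val_le_one_of_isIntegral V (isIntegral_intCast e))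
    rw [map_mul, hdenV, mul_one] at h2
    exact h2
  have haa : ((a.toNat : ℕ) : Qb) = (a : Qb) := by
    have := Int.toNat_of_nonneg ha0
    exact_mod_cast congrArg (fun q : ℤ => (q : Qb)) this
  have e : x - (((⟨a.toNat, by omega⟩ : Fin p) : ℕ) : Qb) = (x - b) + ((b : Qb) - (a : Qb)) := by
    rw [← haa]
    ring
  rw [e]
  exact lt_of_le_of_lt (V.valuation.map_add _ _) (max_lt (lt_of_le_of_lt hb hV) h1)

end Pool.Agent.Q281.UN
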