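import Mathlib
import Pool.Agent.Q281.UN.Zp

set_option autoImplicit false

/-!
# Roots of polynomials which split over the `p`-adic integers are totally `p`-adic
-/

namespace Pool.Agent.Q281.UN

open Polynomial
open Pool.Agent.Q281.USB
open Pool.Agent.H58P (Qb qb_isIntegral)

/-- a polynomial which splits over the `p`-adic integers has totally `p`-adic roots -/
theorem mem_TP_of_splits {p : ℕ} [hp : Fact p.Prime] (G : ℤ[X]) (hG : G.Monic) {n : ℕ}
    (z : Fin n → ℤ_[p]) (hz : G.map (Int.castRingHom ℤ_[p]) = ∏ i, (X - C (z i)))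
    (x : Qb) (hx : aeval x G = 0) : x ∈ TP p hp.out := by
  intro V hV N
  have hxi : IsIntegral ℤ x := ⟨G, hG, hx⟩
  -- reduce the factorisation modulo `p ^ (N * n)`
  set M := N * n with hM
  set a : Fin n → ℕ := fun i => (z i).appr M with ha
  have h1 : (G - ∏ i, (X - C ((a i : ℕ) : ℤ))).map (Int.castRingHom (ZMod (p ^ M))) = 0 := by
    have e1 : Int.castRingHom (ZMod (p ^ M)) =
        (PadicInt.toZModPow M).comp (Int.castRingHom ℤ_[p]) := RingHom.ext_int _ _
    rw [Polynomial.map_sub, sub_eq_zero]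
    conv_lhs => rw [e1, ← Polynomial.map_map, hz]
    rw [Polynomial.map_prod, Polynomial.map_prod]
    refine Finset.prod_congr rfl fun i _ => ?_
    simp only [Polynomial.map_sub, map_X, map_C]
    congr 2
    have h2 := PadicInt.appr_spec M (z i)
    rw [← PadicInt.ker_toZModPow, RingHom.mem_ker, map_sub, sub_eq_zero] at h2
    rw [h2, ha]
    simp
  have h2 : C ((p : ℤ) ^ M) ∣ G - ∏ i, (X - C ((a i : ℕ) : ℤ)) := by
    rw [C_dvd_iff_dvd_coeff]
    intro j
    have h3 := congrArg (fun q => coeff q j) h1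
    simp only [coeff_map, coeff_zero, eq_intCast] at h3
    rw [ZMod.intCast_zmod_eq_zero_iff_dvd] at h3
    exact_mod_cast h3
  obtain ⟨H, hH⟩ := h2
  have h3 : ∏ i, (x - ((a i : ℕ) : Qb)) = -((p : Qb) ^ M * aeval x H) := by
    have h4 := congrArg (aeval x) hH
    rw [map_sub, hx, map_mul, map_prod, aeval_C, zero_sub] at h4
    simp only [map_sub, aeval_X, aeval_C] at h4
    simp only [eq_intCast] at h4
    push_cast at h4
    rw [← h4, neg_neg]
  have h4 : ∏ i, V.valuation (x - ((a i : ℕ) : Qb)) ≤ (V.valuation (p : Qb) ^ N) ^ n := by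
    rw [← map_prod, h3, Valuation.map_neg, map_mul, map_pow, ← pow_mul]
    refine mul_le_of_le_one_right' ?_
    apply val_le_one_of_isIntegral
    rw [aeval_eq_sum_range]
    refine IsIntegral.sum _ fun i _ => ?_
    exact (hxi.pow i).smul _
  have hn : 0 < n := by
    rw [Nat.pos_iff_ne_zero]
    rintro rfl
    rw [Fin.prod_univ_zero] at hz
    have h5 : G = 1 := by
      apply Polynomial.map_injective (Int.castRingHom ℤ_[p]) (by
        intro u v huv
        simpa using huv)
      rw [hz, Polynomial.map_one]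
    rw [h5, map_one] at hx
    exact one_ne_zero hx
  have : Nonempty (Fin n) := ⟨⟨0, hn⟩⟩
  obtain ⟨i, -, hi⟩ := Finset.univ.exists_min_image
    (fun i : Fin n => V.valuation (x - ((a i : ℕ) : Qb))) Finset.univ_nonempty
  have h5 := Finset.pow_card_le_prod Finset.univ
    (fun i : Fin n => V.valuation (x - ((a i : ℕ) : Qb))) _ hi
  rw [Finset.card_univ, Fintype.card_fin] at h5
  refine ⟨((a i : ℕ) : ℚ), ?_⟩
  have h6 := h5.trans h4
  have h7 : V.valuation (x - (((a i : ℕ) : ℚ) : Qb)) = V.valuation (x - ((a i : ℕ) : Qb)) := by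
    congr 2
  rw [h7]
  exact le_of_pow_le_pow_left₀ hn.ne' zero_le h6

/-- a criterion of Hensel type -/
theorem mem_TP_of_hensel {p : ℕ} [hp : Fact p.Prime] (G : ℤ[X]) (hG : G.Monic) {n : ℕ}
    (hn : G.natDegree = n) (a : Fin n → ℤ)
    (h1 : ∀ i, ‖aeval ((a i : ℤ) : ℤ_[p]) G‖ < ‖aeval ((a i : ℤ) : ℤ_[p]) (derivative G)‖ ^ 2)
    (h2 : ∀ i l, i ≠ l → ‖aeval ((a i : ℤ) : ℤ_[p]) (derivative G)‖ ≤
      ‖((a i : ℤ) : ℤ_[p]) - ((a l : ℤ) : ℤ_[p])‖)
    (x : Qb) (hx : aeval x G = 0) : x ∈ TP p hp.out := by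
  classical
  choose z hz1 hz2 _ _ using fun i => hensels_lemma (h1 i)
  have hinj : Function.Injective z := by
    intro i l hil
    by_contra hne
    have h3 : ‖((a i : ℤ) : ℤ_[p]) - ((a l : ℤ) : ℤ_[p])‖ ≤
        max ‖z i - a i‖ ‖z l - a l‖ := by
      have e : ((a i : ℤ) : ℤ_[p]) - ((a l : ℤ) : ℤ_[p]) = -(z i - a i) + (z l - a l) := by
        rw [hil]; ring
      rw [e, ← norm_neg (z i - a i)]
      exact PadicInt.nonarchimedean _ _
    rcases le_total ‖z i - a i‖ ‖z l - a l‖ with h | h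
    · rw [max_eq_right h] at h3
      have h4 := h2 l i (Ne.symm hne)
      rw [norm_sub_rev] at h4
      exact absurd (lt_of_le_of_lt h3 (hz2 l)) (not_lt.mpr h4)
    · rw [max_eq_left h] at h3
      exact absurd (lt_of_le_of_lt h3 (hz2 i)) (not_lt.mpr (h2 i l hne))
  have hGm : (G.map (Int.castRingHom ℤ_[p])).Monic := hG.map _
  refine mem_TP_of_splits G hG z ?_ x hx
  apply eq_of_monic_of_dvd_of_natDegree_le
  · exact monic_prod_of_monic _ _ fun i _ => monic_X_sub_C _
  · exact hGm
  · have h3 : (Finset.univ.val.map z) ≤ (G.map (Int.castRingHom ℤ_[p])).roots := by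
      rw [Multiset.le_iff_subset (Multiset.Nodup.map hinj Finset.univ.nodup)]
      intro w hw
      rw [Multiset.mem_map] at hw
      obtain ⟨i, -, rfl⟩ := hw
      rw [mem_roots hGm.ne_zero, IsRoot.def, eval_map]
      exact hz1 i
    have h4 := (Multiset.prod_X_sub_C_dvd_iff_le_roots hGm.ne_zero _).mpr h3
    rw [Multiset.map_map] at h4
    exact h4
  · rw [natDegree_map_eq_of_injective (by
      intro u v huv
      simpa using huv), hn, natDegree_prod_of_monic _ _ fun i _ => monic_X_sub_C _]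
    simp

end Pool.Agent.Q281.UN
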