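import Mathlib
import Pool.Agent.Q281.UN.Hens
import Pool.Agent.W70.LD.Mahler

set_option autoImplicit false

/-!
# Algebraic numbers of small height which are totally `p`-adic for all `p` in a finite set
-/

namespace Pool.Agent.Q281.UN

open Polynomial Nat
open Pool.Agent.Q281.USB
open Pool.Agent.H58P (Qb ht qb_isIntegral)
open Pool.Agent.H58W (hM dens)

/-- the product of the differences divides the factorial -/
lemma prod_sub_dvd (n i : ℕ) (hi : i < n) :
    ∏ l ∈ (Finset.range n).erase i, ((i : ℤ) - (l : ℤ)) ∣ (((n - 1)! : ℕ) : ℤ) := by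
  have h1 : (Finset.range n).erase i = Finset.range i ∪ Finset.Ico (i + 1) n := by
    ext l
    simp only [Finset.mem_erase, Finset.mem_range, Finset.mem_union, Finset.mem_Ico]
    omega
  have h2 : Disjoint (Finset.range i) (Finset.Ico (i + 1) n) := by
    rw [Finset.disjoint_left]
    intro l hl hl'
    simp only [Finset.mem_range, Finset.mem_Ico] at hl hl'
    omega
  rw [h1, Finset.prod_union h2]
  have h3 : ∏ l ∈ Finset.range i, ((i : ℤ) - (l : ℤ)) = ((i ! : ℕ) : ℤ) := by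
    rw [← Finset.prod_range_add_one_eq_factorial, ← Finset.prod_range_reflect]
    push_cast
    refine Finset.prod_congr rfl fun l hl => ?_
    rw [Finset.mem_range] at hl
    have : ((i - 1 - l : ℕ) : ℤ) = (i : ℤ) - 1 - l := by omega
    rw [this]
    ring
  have h4 : ∏ l ∈ Finset.Ico (i + 1) n, ((i : ℤ) - (l : ℤ)) =
      (-1) ^ (n - (i + 1)) * (((n - 1 - i)! : ℕ) : ℤ) := by
    rw [Finset.prod_Ico_eq_prod_range, show n - 1 - i = n - (i + 1) by omega,
      ← Finset.prod_range_add_one_eq_factorial]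
    push_cast
    have : ∀ j ∈ Finset.range (n - (i + 1)), ((i : ℤ) - ((i : ℤ) + 1 + (j : ℤ))) =
        (-1) * ((j : ℤ) + 1) := fun j _ => by ring
    rw [Finset.prod_congr rfl this, Finset.prod_mul_distrib, Finset.prod_const, Finset.card_range]
  rw [h3, h4]
  have h5 : (i ! * (n - 1 - i)! : ℕ) ∣ (n - 1)! := Nat.factorial_mul_factorial_dvd_factorial
    (by omega)
  have h6 : ((i ! : ℕ) : ℤ) * ((-1) ^ (n - (i + 1)) * (((n - 1 - i)! : ℕ) : ℤ)) =
      (-1) ^ (n - (i + 1)) * ((i ! * (n - 1 - i)! : ℕ) : ℤ) := by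
    push_cast
    ring
  rw [h6]
  have h7 : IsUnit ((-1 : ℤ) ^ (n - (i + 1))) := (isUnit_one.neg).pow _
  rw [h7.mul_left_dvd]
  exact_mod_cast h5

/-- the polynomial `∏ (X - i)` -/
noncomputable def nod (n : ℕ) : ℤ[X] := Lagrange.nodal (Finset.range n) (fun l : ℕ => (l : ℤ))

lemma nod_monic (n : ℕ) : (nod n).Monic := Lagrange.nodal_monic

lemma nod_natDegree (n : ℕ) : (nod n).natDegree = n := by
  rw [nod, Lagrange.natDegree_nodal, Finset.card_range]

/-- the Hensel criterion for the perturbations of `∏ (X - i)` -/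
lemma mem_TP_of_perturb {p : ℕ} [hp : Fact p.Prime] {n : ℕ} (G H : ℤ[X]) (M : ℤ) (hG : G.Monic)
    (hn : G.natDegree = n) (hGH : G = nod n + C M * H)
    (hM : (p : ℤ) ^ (2 * (padicValNat p (n - 1)! + 1)) ∣ M)
    (x : Qb) (hx : aeval x G = 0) : x ∈ TP p hp.out := by
  set v := padicValNat p (n - 1)! + 1 with hv
  set Δ : ℕ → ℤ := fun i => ∏ l ∈ (Finset.range n).erase i, ((i : ℤ) - (l : ℤ)) with hΔ
  have hp1 : (1 : ℝ) < p := by exact_mod_cast hp.out.one_lt
  have hMnorm : ‖((M : ℤ) : ℤ_[p])‖ ≤ (p : ℝ) ^ (-((2 * v : ℕ) : ℤ)) := by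
    rw [PadicInt.norm_int_le_pow_iff_dvd]
    exact_mod_cast hM
  have hΔnorm : ∀ i : Fin n, (p : ℝ) ^ (-(v : ℤ)) < ‖((Δ i : ℤ) : ℤ_[p])‖ := by
    intro i
    by_contra hcon
    push Not at hcon
    rw [PadicInt.norm_int_le_pow_iff_dvd] at hcon
    have h0 : ((p ^ v : ℕ) : ℤ) ∣ Δ i := by
      push_cast
      exact hcon
    have h1 : ((p ^ v : ℕ) : ℤ) ∣ (((n - 1)! : ℕ) : ℤ) := h0.trans (prod_sub_dvd n i i.2)
    have h2 : p ^ v ∣ (n - 1)! := by exact_mod_cast h1
    rw [padicValNat_dvd_iff_le (Nat.factorial_ne_zero _)] at h2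
    omega
  have hsq : (p : ℝ) ^ (-((2 * v : ℕ) : ℤ)) = ((p : ℝ) ^ (-(v : ℤ))) ^ 2 := by
    rw [← zpow_natCast, ← zpow_mul]
    congr 1
    push_cast
    ring
  have hle1 : (p : ℝ) ^ (-(v : ℤ)) ≤ 1 := by
    rw [zpow_neg, zpow_natCast]
    exact inv_le_one_of_one_le₀ (one_le_pow₀ hp1.le)
  have hpos : (0 : ℝ) < (p : ℝ) ^ (-(v : ℤ)) := by positivity
  have hGi : ∀ i : Fin n, aeval (((i : ℕ) : ℤ) : ℤ_[p]) G =
      ((M : ℤ) : ℤ_[p]) * aeval (((i : ℕ) : ℤ) : ℤ_[p]) H := by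
    intro i
    rw [hGH, map_add, map_mul, aeval_C]
    have h1 : aeval (((i : ℕ) : ℤ) : ℤ_[p]) (nod n) = 0 := by
      have h2 : (((i : ℕ) : ℤ) : ℤ_[p]) = algebraMap ℤ ℤ_[p] ((i : ℕ) : ℤ) := by simp
      rw [h2, aeval_algebraMap_apply_eq_algebraMap_eval, nod,
        Lagrange.eval_nodal_at_node (v := fun l : ℕ => (l : ℤ)) (Finset.mem_range.mpr i.2), map_zero]
    rw [h1, zero_add]
    simp
  have hG'i : ∀ i : Fin n, aeval (((i : ℕ) : ℤ) : ℤ_[p]) (derivative G) =
      ((Δ i : ℤ) : ℤ_[p]) + ((M : ℤ) : ℤ_[p]) * aeval (((i : ℕ) : ℤ) : ℤ_[p]) (derivative H) := by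
    intro i
    rw [hGH, derivative_add, derivative_mul, derivative_C, zero_mul, zero_add, map_add, map_mul,
      aeval_C]
    have h1 : aeval (((i : ℕ) : ℤ) : ℤ_[p]) (derivative (nod n)) = ((Δ i : ℤ) : ℤ_[p]) := by
      have h2 : (((i : ℕ) : ℤ) : ℤ_[p]) = algebraMap ℤ ℤ_[p] ((i : ℕ) : ℤ) := by simp
      rw [h2, aeval_algebraMap_apply_eq_algebraMap_eval, nod,
        Lagrange.eval_nodal_derivative_eval_node_eq (v := fun l : ℕ => (l : ℤ))
          (Finset.mem_range.mpr i.2), Lagrange.eval_nodal]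
      simp [hΔ]
    rw [h1]
    simp
  have hG'norm : ∀ i : Fin n, ‖aeval (((i : ℕ) : ℤ) : ℤ_[p]) (derivative G)‖ =
      ‖((Δ i : ℤ) : ℤ_[p])‖ := by
    intro i
    rw [hG'i]
    have h1 : ‖((M : ℤ) : ℤ_[p]) * aeval (((i : ℕ) : ℤ) : ℤ_[p]) (derivative H)‖ <
        ‖((Δ i : ℤ) : ℤ_[p])‖ := by
      rw [norm_mul]
      calc ‖((M : ℤ) : ℤ_[p])‖ * ‖aeval (((i : ℕ) : ℤ) : ℤ_[p]) (derivative H)‖ ≤
            ‖((M : ℤ) : ℤ_[p])‖ * 1 := mul_le_mul_of_nonneg_left (PadicInt.norm_le_one _)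
              (norm_nonneg _)
        _ ≤ (p : ℝ) ^ (-((2 * v : ℕ) : ℤ)) := by rw [mul_one]; exact hMnorm
        _ ≤ (p : ℝ) ^ (-(v : ℤ)) := by rw [hsq]; nlinarith
        _ < _ := hΔnorm i
    rw [add_comm]
    rw [PadicInt.norm_add_eq_max_of_ne h1.ne, max_eq_right h1.le]
  refine mem_TP_of_hensel G hG hn (fun i : Fin n => ((i : ℕ) : ℤ)) ?_ ?_ x hx
  · intro i
    rw [hG'norm, hGi, norm_mul]
    calc ‖((M : ℤ) : ℤ_[p])‖ * ‖aeval (((i : ℕ) : ℤ) : ℤ_[p]) H‖ ≤ ‖((M : ℤ) : ℤ_[p])‖ * 1 :=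
          mul_le_mul_of_nonneg_left (PadicInt.norm_le_one _) (norm_nonneg _)
      _ ≤ (p : ℝ) ^ (-((2 * v : ℕ) : ℤ)) := by rw [mul_one]; exact hMnorm
      _ = ((p : ℝ) ^ (-(v : ℤ))) ^ 2 := hsq
      _ < _ := pow_lt_pow_left₀ (hΔnorm i) hpos.le two_ne_zero
  · intro i l hil
    rw [hG'norm]
    have h1 : ((i : ℕ) : ℤ) - ((l : ℕ) : ℤ) ∣ Δ i := by
      apply Finset.dvd_prod_of_mem (fun l : ℕ => ((i : ℕ) : ℤ) - (l : ℤ))
      rw [Finset.mem_erase, Finset.mem_range]
      exact ⟨fun h => hil (Fin.ext h.symm), l.2⟩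
    obtain ⟨c, hc⟩ := h1
    rw [hc]
    push_cast
    rw [norm_mul]
    exact mul_le_of_le_one_right (norm_nonneg _) (PadicInt.norm_le_one _)

/-- the polynomials of Eisenstein type congruent to `∏ (X - i)` -/
lemma exists_poly (n M : ℕ) (hn : 0 < n) (hM : M.Coprime 4) (hM0 : M ≠ 0) :
    ∃ G H : ℤ[X], G.Monic ∧ G.natDegree = n ∧ G = nod n + C (M : ℤ) * H ∧ Irreducible G ∧
      ∀ j, j < n → |G.coeff j| ≤ 4 * M := by
  set b : ℕ → ℕ := fun j => ((nod n).coeff j % M).toNat with hb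
  set c : ℕ → ℕ := fun j => Nat.chineseRemainder hM (b j) (if j = 0 then 2 else 0) with hc
  have hcM : ∀ j, c j ≡ b j [MOD M] := fun j => (Nat.chineseRemainder hM _ _).2.1
  have hc4 : ∀ j, c j ≡ (if j = 0 then 2 else 0) [MOD 4] := fun j =>
    (Nat.chineseRemainder hM _ _).2.2
  have hclt : ∀ j, c j < M * 4 := fun j => Nat.chineseRemainder_lt_mul hM _ _ hM0 (by norm_num)
  set G : ℤ[X] := X ^ n + ∑ j ∈ Finset.range n, C ((c j : ℕ) : ℤ) * X ^ j with hG
  have hdeg : (∑ j ∈ Finset.range n, C ((c j : ℕ) : ℤ) * X ^ j).degree < ((n : ℕ) : WithBot ℕ) := by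
    apply lt_of_le_of_lt (degree_sum_le _ _)
    rw [Finset.sup_lt_iff (by exact_mod_cast WithBot.bot_lt_coe n)]
    intro j hj
    rw [Finset.mem_range] at hj
    exact lt_of_le_of_lt (degree_C_mul_X_pow_le _ _) (by exact_mod_cast hj)
  have hGm : G.Monic := monic_X_pow_add hdeg
  have hGd : G.natDegree = n := natDegree_eq_of_degree_eq_some (by
    rw [hG, degree_add_eq_left_of_degree_lt (by rw [degree_X_pow]; exact hdeg), degree_X_pow])
  have hcoeff : ∀ j, j < n → G.coeff j = c j := by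
    intro j hj
    rw [hG, coeff_add, coeff_X_pow, if_neg hj.ne, zero_add, finsetSum_coeff]
    rw [Finset.sum_eq_single j]
    · simp
    · intro l _ hl
      rw [coeff_C_mul, coeff_X_pow, if_neg hl.symm, mul_zero]
    · intro h
      exact absurd (Finset.mem_range.mpr hj) h
  have hdvd : C (M : ℤ) ∣ G - nod n := by
    rw [C_dvd_iff_dvd_coeff]
    intro j
    rw [coeff_sub]
    rcases lt_trichotomy j n with hj | rfl | hj
    · rw [hcoeff j hj]
      have h1 : ((c j : ℕ) : ℤ) ≡ ((b j : ℕ) : ℤ) [ZMOD M] := Int.natCast_modEq_iff.mpr (hcM j)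
      have h2 : ((b j : ℕ) : ℤ) = (nod n).coeff j % M := by
        rw [hb]
        exact Int.toNat_of_nonneg (Int.emod_nonneg _ (by exact_mod_cast hM0))
      rw [h2] at h1
      have h3 := h1.trans (Int.mod_modEq _ _)
      exact h3.symm.dvd
    · have h1 : G.coeff j = 1 := by
        have := hGm.coeff_natDegree
        rwa [hGd] at this
      have h2 : (nod j).coeff j = 1 := by
        have := (nod_monic j).coeff_natDegree
        rwa [nod_natDegree] at this
      rw [h1, h2, sub_self]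
      exact dvd_zero _
    · rw [coeff_eq_zero_of_natDegree_lt (by rw [hGd]; exact hj),
        coeff_eq_zero_of_natDegree_lt (by rw [nod_natDegree]; exact hj), sub_self]
      exact dvd_zero _
  obtain ⟨H, hH⟩ := hdvd
  have heis : G.IsEisensteinAt (Ideal.span {(2 : ℤ)}) := by
    refine ⟨?_, ?_, ?_⟩
    · rw [hGm.leadingCoeff, Ideal.mem_span_singleton]
      norm_num
    · intro j hj
      rw [hGd] at hj
      rw [hcoeff j hj, Ideal.mem_span_singleton]
      have h1 := hc4 j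
      have h2 : 2 ∣ c j := by
        have h3 : c j ≡ (if j = 0 then 2 else 0) [MOD 2] := h1.of_dvd (by norm_num)
        have h4 : c j ≡ 0 [MOD 2] := by
          refine h3.trans ?_
          split_ifs
          · rfl
          · rfl
        exact (Nat.modEq_zero_iff_dvd).mp h4
      exact_mod_cast h2
    · rw [hcoeff 0 hn, Ideal.span_singleton_pow, Ideal.mem_span_singleton]
      intro h
      have h1 := hc4 0
      rw [if_pos rfl] at h1
      have h2 : (4 : ℕ) ∣ c 0 := by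
        have : ((4 : ℕ) : ℤ) ∣ ((c 0 : ℕ) : ℤ) := by
          have e : ((2 : ℤ) ^ 2) = ((4 : ℕ) : ℤ) := by norm_num
          rwa [e] at h
        exact_mod_cast this
      have h3 := (Nat.modEq_zero_iff_dvd).mpr h2
      have h4 := h1.symm.trans h3
      exact absurd h4 (by decide)
  have hirr : Irreducible G := by
    refine heis.irreducible ?_ hGm.isPrimitive (by rw [hGd]; exact hn)
    rw [Ideal.span_singleton_prime (by norm_num)]
    exact Int.prime_two
  refine ⟨G, H, hGm, hGd, ?_, hirr, ?_⟩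
  · rw [← hH]
    ring
  · intro j hj
    rw [hcoeff j hj, abs_of_nonneg (by positivity)]
    have := hclt j
    have h2 : ((c j : ℕ) : ℤ) ≤ ((M * 4 : ℕ) : ℤ) := by exact_mod_cast this.le
    push_cast at h2
    linarith

end Pool.Agent.Q281.UN
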