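import Mathlib
import Pool.Agent.Q281.UN.Poly

set_option autoImplicit false

/-!
# Algebraic numbers of bounded height which are totally `p`-adic for all `p` in a finite set
-/

namespace Pool.Agent.Q281.UN

open Polynomial Nat
open Pool.Agent.Q281.USB
open Pool.Agent.H58P (Qb ht qb_isIntegral)
open Pool.Agent.H58W (hM dens)

/-- the height of a root of an irreducible monic integral polynomial -/
lemma ht_root_le (G : ℤ[X]) (hG : G.Monic) (hirr : Irreducible G) (n : ℕ) (hn : G.natDegree = n)
    (hn0 : 0 < n) (A : ℝ) (hA : 1 ≤ A) (hcoeff : ∀ j, j < n → |(G.coeff j : ℝ)| ≤ A) (α : Qb)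
    (hα : aeval α G = 0) :
    (minpoly ℚ α).natDegree = n ∧ ht α ≤ Real.log ((n + 1) * A) / n := by
  have hmin : minpoly ℚ α = G.map (algebraMap ℤ ℚ) := by
    symm
    apply minpoly.eq_of_irreducible_of_monic
    · exact (hG.irreducible_iff_irreducible_map_fraction_map (K := ℚ)).mp hirr
    · rw [aeval_map_algebraMap]
      exact hα
    · exact hG.map _
  have hdeg : (minpoly ℚ α).natDegree = n := by
    rw [hmin, natDegree_map_eq_of_injective (RingHom.injective_int (algebraMap ℤ ℚ)), hn]
  refine ⟨hdeg, (Pool.Agent.W70.LD.ht_le_hM α).trans ?_⟩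
  have hd : sInf (dens α) = 1 := by
    have h1 : 1 ∈ dens α := by
      refine ⟨one_pos, fun i => ?_⟩
      rw [hmin, coeff_map, Nat.cast_one, one_mul]
      simp
    have h2 := Nat.sInf_le h1
    have h3 := (Nat.sInf_mem ⟨1, h1⟩).1
    omega
  rw [hM, hd, hdeg, Nat.cast_one, one_mul]
  have hn' : (0 : ℝ) < n := by exact_mod_cast hn0
  apply div_le_div_of_nonneg_right _ hn'.le
  have hmap : (minpoly ℚ α).map (algebraMap ℚ ℂ) = G.map (Int.castRingHom ℂ) := by
    rw [hmin, Polynomial.map_map]
    congr 1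
  rw [hmap]
  have hmon : (G.map (Int.castRingHom ℂ)).Monic := hG.map _
  have hle : (G.map (Int.castRingHom ℂ)).mahlerMeasure ≤ (n + 1) * A := by
    refine (mahlerMeasure_le_sum_norm_coeff _).trans ?_
    rw [Polynomial.sum_over_range _ (fun _ => norm_zero)]
    rw [natDegree_map_eq_of_injective (RingHom.injective_int (Int.castRingHom ℂ)), hn]
    have h1 : ∀ i ∈ Finset.range (n + 1), ‖(G.map (Int.castRingHom ℂ)).coeff i‖ ≤ A := by
      intro i hi
      rw [Finset.mem_range] at hi
      rw [coeff_map, eq_intCast, Complex.norm_intCast]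
      rcases Nat.lt_succ_iff_lt_or_eq.mp hi with h | rfl
      · exact hcoeff i h
      · have h2 : G.coeff i = 1 := by
          have := hG.coeff_natDegree
          rwa [hn] at this
        rw [h2]
        simpa using hA
    refine (Finset.sum_le_card_nsmul _ _ _ h1).trans ?_
    rw [Finset.card_range, nsmul_eq_mul]
    push_cast
    exact le_rfl
  apply Real.log_le_log _ hle
  have := Pool.Agent.H58W.one_le_mm α
  rw [hmap] at this
  linarith

/-- **totally `p`-adic numbers of small height, for finitely many `p`** -/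
theorem exists_alpha (S : Finset ℕ) (hS : ∀ p ∈ S, p.Prime ∧ p ≠ 2) (B : ℕ) :
    ∃ α : Qb, (∀ (p : ℕ) (hp : p.Prime), p ∈ S → α ∈ TP p hp) ∧
      B < (minpoly ℚ α).natDegree ∧
      ht α ≤ 2 * ∑ p ∈ S, Real.log p / ((p : ℝ) - 1) + 1 := by
  set c : ℝ := Real.log 4 + 2 * ∑ p ∈ S, Real.log p with hc
  have hc0 : 0 ≤ c := by
    have h1 : 0 ≤ ∑ p ∈ S, Real.log (p : ℝ) := Finset.sum_nonneg fun p _ => Real.log_natCast_nonneg p
    have h2 : (0 : ℝ) ≤ Real.log 4 := Real.log_nonneg (by norm_num)
    linarith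
  set n : ℕ := max (B + 1) (⌈2 * (c + 1)⌉₊ + 1) with hn
  have hnB : B < n := lt_of_lt_of_le (Nat.lt_succ_self B) (le_max_left _ _)
  have hnc : 2 * (c + 1) ≤ n := by
    refine (Nat.le_ceil _).trans ?_
    have : ⌈2 * (c + 1)⌉₊ ≤ n := (Nat.le_succ _).trans (le_max_right _ _)
    exact_mod_cast this
  have hn0 : 0 < n := by omega
  have hn' : (0 : ℝ) < n := by exact_mod_cast hn0
  set e : ℕ → ℕ := fun p => 2 * (padicValNat p (n - 1)! + 1) with he
  set M : ℕ := ∏ p ∈ S, p ^ e p with hM
  have hM0 : M ≠ 0 := Finset.prod_ne_zero_iff.mpr fun p hp => pow_ne_zero _ (hS p hp).1.ne_zero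
  have hMcop : M.Coprime 4 := by
    apply Nat.Coprime.prod_left
    intro p hp
    apply Nat.Coprime.pow_left
    have : (4 : ℕ) = 2 ^ 2 := by norm_num
    rw [this]
    apply Nat.Coprime.pow_right
    exact (Nat.coprime_primes (hS p hp).1 Nat.prime_two).mpr (hS p hp).2
  obtain ⟨G, H, hGm, hGd, hGH, hGirr, hGc⟩ := exists_poly n M hn0 hMcop hM0
  obtain ⟨α, hα⟩ := IsAlgClosed.exists_aeval_eq_zero Qb (G.map (algebraMap ℤ ℚ)) (by
    rw [degree_map_eq_of_injective (RingHom.injective_int (algebraMap ℤ ℚ)),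
      degree_eq_natDegree hGm.ne_zero, hGd]
    exact_mod_cast hn0.ne')
  rw [aeval_map_algebraMap] at hα
  have hM1 : (1 : ℝ) ≤ M := by exact_mod_cast Nat.one_le_iff_ne_zero.mpr hM0
  obtain ⟨hdeg, hht⟩ := ht_root_le G hGm hGirr n hGd hn0 (4 * M) (by linarith) (fun j hj => by
    have := hGc j hj
    have h2 : ((|G.coeff j| : ℤ) : ℝ) ≤ ((4 * M : ℤ) : ℝ) := by exact_mod_cast this
    push_cast at h2
    exact h2) α hα
  refine ⟨α, ?_, by rw [hdeg]; exact hnB, hht.trans ?_⟩
  · intro p hp hpS
    have : Fact p.Prime := ⟨hp⟩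
    refine mem_TP_of_perturb G H M hGm hGd hGH ?_ α hα
    have h1 : p ^ e p ∣ M := Finset.dvd_prod_of_mem _ hpS
    exact_mod_cast h1
  · rw [div_le_iff₀ hn']
    have hlogM : Real.log M = ∑ p ∈ S, (e p : ℝ) * Real.log p := by
      rw [hM]
      push_cast
      rw [Real.log_prod (fun p hp => by
        have := (hS p hp).1.pos
        positivity)]
      refine Finset.sum_congr rfl fun p _ => ?_
      rw [Real.log_pow]
    have hlog : Real.log ((n + 1) * (4 * M)) = Real.log (n + 1) + (Real.log 4 + Real.log M) := by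
      rw [Real.log_mul (by positivity) (by positivity), Real.log_mul (by norm_num) (by positivity)]
    have hlogn : Real.log ((n : ℝ) + 1) ≤ n / 2 + 1 := by
      have h1 : Real.log (((n : ℝ) + 1) / 2) ≤ ((n : ℝ) + 1) / 2 - 1 :=
        Real.log_le_sub_one_of_pos (by positivity)
      rw [Real.log_div (by positivity) (by norm_num)] at h1
      have h2 : Real.log 2 < 1 := by
        have := Real.log_two_lt_d9
        linarith
      linarith
    have hep : ∀ p ∈ S, (e p : ℝ) * Real.log p ≤
        2 * (Real.log p / ((p : ℝ) - 1)) * n + 2 * Real.log p := by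
      intro p hp
      have hpp := (hS p hp).1
      have hfact : Fact p.Prime := ⟨hpp⟩
      have h1 := sub_one_mul_padicValNat_factorial (p := p) (n - 1)
      have h2 : (p - 1) * padicValNat p (n - 1)! ≤ n := by
        rw [h1]
        omega
      have hp1 : (0 : ℝ) < (p : ℝ) - 1 := by
        have : (1 : ℝ) < p := by exact_mod_cast hpp.one_lt
        linarith
      have h3 : ((p : ℝ) - 1) * padicValNat p (n - 1)! ≤ n := by
        have h4 : (((p - 1) * padicValNat p (n - 1)! : ℕ) : ℝ) ≤ n := by exact_mod_cast h2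
        rw [Nat.cast_mul, Nat.cast_sub hpp.one_lt.le] at h4
        simpa using h4
      have h5 : (padicValNat p (n - 1)! : ℝ) ≤ n / ((p : ℝ) - 1) := by
        rw [le_div_iff₀ hp1]
        linarith
      have h6 : 0 ≤ Real.log (p : ℝ) := Real.log_natCast_nonneg p
      have h7 : (e p : ℝ) = 2 * (padicValNat p (n - 1)! + 1) := by
        rw [he]
        push_cast
        ring
      rw [h7]
      have h8 := mul_le_mul_of_nonneg_right h5 h6
      have h9 : (n : ℝ) / ((p : ℝ) - 1) * Real.log p = Real.log p / ((p : ℝ) - 1) * n := by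
        field_simp
      rw [h9] at h8
      linarith
    have hsum := Finset.sum_le_sum hep
    rw [Finset.sum_add_distrib, ← Finset.sum_mul, ← Finset.mul_sum, ← Finset.mul_sum] at hsum
    rw [hlog, hlogM]
    have hcc : Real.log 4 + 2 * ∑ p ∈ S, Real.log (p : ℝ) = c := rfl
    nlinarith

end Pool.Agent.Q281.UN
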