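import Mathlib
import Pool.Agent.Q281.UN.Hens
import Pool.Agent.W401.Cheb.Main

set_option autoImplicit false

/-!
# Finitely many algebraic numbers are totally `p`-adic for infinitely many `p`
-/

namespace Pool.Agent.Q281.UN

open Polynomial NumberField Module
open Pool.Agent.Q281.USB
open Pool.Agent.W401.Cheb
open Pool.Agent.H58P (Qb ht qb_isIntegral)

/-- a nonzero algebraic integer divides a positive integer -/
lemma exists_dvd_nat {L : Type} [Field L] [NumberField L] (δ : 𝓞 L) (hδ : δ ≠ 0) :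
    ∃ N : ℕ, 0 < N ∧ δ ∣ (N : 𝓞 L) := by
  have h1 : Ideal.span {δ} ≠ ⊥ := by
    rw [Ne, Ideal.span_singleton_eq_bot]
    exact hδ
  refine ⟨Ideal.absNorm (Ideal.span {δ}), ?_, ?_⟩
  · rw [Nat.pos_iff_ne_zero, Ne, Ideal.absNorm_eq_zero_iff]
    exact h1
  · rw [← Ideal.mem_span_singleton]
    exact Ideal.absNorm_mem _

lemma key_split {L : Type} [Field L] [NumberField L] [IsGalois ℚ L] (θ : 𝓞 L)
    (hθ : IntermediateField.adjoin ℚ {(θ : L)} = ⊤) (B : ℕ) :
    ∃ p : ℕ, ∃ hp : p.Prime, B < p ∧ ∀ x : Qb, aeval x (minpoly ℤ (θ : L)) = 0 → x ∈ TP p hp := by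
  classical
  set G : ℤ[X] := minpoly ℤ (θ : L) with hG
  have hθi : IsIntegral ℤ (θ : L) := θ.isIntegral_coe
  have hGm : G.Monic := minpoly.monic hθi
  have hmin : minpoly ℚ (θ : L) = G.map (algebraMap ℤ ℚ) :=
    minpoly.isIntegrallyClosed_eq_field_fractions' ℚ hθi
  have hdeg : G.natDegree = Nat.card Gal(L/ℚ) := by
    rw [IsGalois.card_aut_eq_finrank, ← IntermediateField.finrank_top', ← hθ,
      IntermediateField.adjoin.finrank (Algebra.IsIntegral.isIntegral (θ : L)), hmin,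
      natDegree_map_eq_of_injective (RingHom.injective_int (algebraMap ℤ ℚ))]
  -- the conjugates
  set y : Gal(L/ℚ) → 𝓞 L := fun σ => σ • θ with hy
  have hyL : ∀ σ : Gal(L/ℚ), ((y σ : 𝓞 L) : L) = σ (θ : L) := fun σ => rfl
  have hyG : ∀ σ, aeval (y σ) G = 0 := by
    intro σ
    apply RingOfIntegers.ext
    have h1 : ((aeval (y σ) G : 𝓞 L) : L) = aeval ((y σ : 𝓞 L) : L) G := by
      exact (aeval_algebraMap_apply L (y σ) G).symm
    rw [h1, hyL]
    have h2 : aeval (σ (θ : L)) G = σ (aeval (θ : L) G) := by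
      exact (aeval_algHom_apply ((σ : L →ₐ[ℚ] L).restrictScalars ℤ) (θ : L) G)
    rw [h2, hG, minpoly.aeval, map_zero]
    rfl
  have hyinj : Function.Injective y := by
    intro σ τ h
    have h1 : σ (θ : L) = τ (θ : L) := by rw [← hyL, ← hyL, h]
    apply AlgEquiv.ext
    intro x
    have hx : x ∈ IntermediateField.adjoin ℚ {(θ : L)} := by
      rw [hθ]
      exact IntermediateField.mem_top
    induction hx using IntermediateField.adjoin_induction with
    | mem x hx =>
      rw [Set.mem_singleton_iff] at hx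
      rw [hx]
      exact h1
    | algebraMap x => rw [σ.commutes, τ.commutes]
    | add x y _ _ hx hy => rw [map_add, map_add, hx, hy]
    | inv x _ hx => rw [map_inv₀, map_inv₀, hx]
    | mul x y _ _ hx hy => rw [map_mul, map_mul, hx, hy]
  have hG'L : aeval (θ : L) (derivative G) ≠ 0 := by
    have h1 : (minpoly ℚ (θ : L)).Separable :=
      (minpoly.irreducible (Algebra.IsIntegral.isIntegral (θ : L))).separable
    have h2 := h1.aeval_derivative_ne_zero (minpoly.aeval ℚ (θ : L))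
    rw [hmin, derivative_map, aeval_map_algebraMap] at h2
    exact h2
  have hy' : ∀ σ, aeval (y σ) (derivative G) ≠ 0 := by
    intro σ h
    apply hG'L
    have h1 : ((aeval (y σ) (derivative G) : 𝓞 L) : L) = aeval ((y σ : 𝓞 L) : L) (derivative G) := by
      exact (aeval_algebraMap_apply L (y σ) (derivative G)).symm
    rw [h, hyL] at h1
    have h2 : aeval (σ (θ : L)) (derivative G) = σ (aeval (θ : L) (derivative G)) := by
      exact (aeval_algHom_apply ((σ : L →ₐ[ℚ] L).restrictScalars ℤ) (θ : L) (derivative G))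
    rw [h2] at h1
    have h3 : σ (aeval (θ : L) (derivative G)) = 0 := by
      rw [← h1]
      rfl
    exact (map_eq_zero σ).mp h3
  -- the bad integers
  choose N₁ hN₁ hd₁ using fun σ => exists_dvd_nat _ (hy' σ)
  have hsub : ∀ q : {q : Gal(L/ℚ) × Gal(L/ℚ) // q.1 ≠ q.2}, y q.1.1 - y q.1.2 ≠ 0 := by
    intro q h
    exact q.2 (hyinj (sub_eq_zero.mp h))
  choose N₂ hN₂ hd₂ using fun q => exists_dvd_nat _ (hsub q)
  have : Fintype Gal(L/ℚ) := Fintype.ofFinite _
  set B' : ℕ := B + ∑ σ, N₁ σ + ∑ q, N₂ q with hB'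
  obtain ⟨p, ⟨hp, hx⟩, hpB⟩ := (infinite_frob L 1).exists_gt B'
  have hfact : Fact p.Prime := ⟨hp⟩
  have hpN₁ : ∀ σ, N₁ σ < p := by
    intro σ
    have := Finset.single_le_sum (f := N₁) (fun _ _ => Nat.zero_le _) (Finset.mem_univ σ)
    omega
  have hpN₂ : ∀ q, N₂ q < p := by
    intro q
    have := Finset.single_le_sum (f := N₂) (fun _ _ => Nat.zero_le _) (Finset.mem_univ q)
    omega
  refine ⟨p, hp, by omega, ?_⟩
  rw [xp, dif_pos hp] at hx
  obtain ⟨⟨φ, hφ⟩⟩ : Nonempty {φ : 𝓞 L →+* AlgebraicClosure (ZMod p) // HasFrob p φ 1} := by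
    by_contra hcon
    rw [not_nonempty_iff] at hcon
    exact hx Nat.card_of_isEmpty
  have hφ0 : ∀ (δ : 𝓞 L) (N : ℕ), 0 < N → N < p → δ ∣ (N : 𝓞 L) → φ δ ≠ 0 := by
    intro δ N hN hNp hdvd h
    obtain ⟨c, hc⟩ := hdvd
    have h1 : (N : AlgebraicClosure (ZMod p)) = 0 := by
      rw [← map_natCast φ, hc, map_mul, h, zero_mul]
    have h2 := (CharP.cast_eq_zero_iff (AlgebraicClosure (ZMod p)) p N).mp h1
    have := Nat.le_of_dvd hN h2
    omega
  -- integers congruent to the conjugates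
  have hint : ∀ σ, ∃ a : ℤ, ((a : ℤ) : AlgebraicClosure (ZMod p)) = φ (y σ) := by
    intro σ
    have h1 : φ (y σ) ^ p = φ (y σ) := by
      have h2 := hφ (y σ)
      rw [one_smul] at h2
      exact h2.symm
    exact (_root_.mem_bot_iff_intCast p _).mp ((Subfield.mem_bot_iff_pow_eq_self _ p).mpr h1)
  choose a ha using hint
  have hcast : ∀ m : ℤ, ((m : ℤ) : AlgebraicClosure (ZMod p)) = 0 ↔ (p : ℤ) ∣ m := fun m =>
    CharP.intCast_eq_zero_iff _ p m
  have haev : ∀ (P : ℤ[X]) (σ : Gal(L/ℚ)), ((P.eval (a σ) : ℤ) : AlgebraicClosure (ZMod p)) =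
      φ (aeval (y σ) P) := by
    intro P σ
    have h1 : φ (aeval (y σ) P) = aeval (φ (y σ)) P := by
      exact (aeval_algHom_apply φ.toIntAlgHom (y σ) P).symm
    rw [h1, ← ha]
    have h2 : ((a σ : ℤ) : AlgebraicClosure (ZMod p)) = algebraMap ℤ _ (a σ) := by simp
    rw [h2, aeval_algebraMap_apply_eq_algebraMap_eval]
    simp
  have hnorm1 : ∀ m : ℤ, ¬ (p : ℤ) ∣ m → ‖((m : ℤ) : ℤ_[p])‖ = 1 := by
    intro m hm
    have h1 := (PadicInt.norm_int_lt_one_iff_dvd (p := p) m).not.mpr hm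
    exact le_antisymm (PadicInt.norm_le_one _) (not_lt.mp h1)
  have haevp : ∀ (P : ℤ[X]) (m : ℤ), aeval ((m : ℤ) : ℤ_[p]) P = ((P.eval m : ℤ) : ℤ_[p]) := by
    intro P m
    have h2 : ((m : ℤ) : ℤ_[p]) = algebraMap ℤ _ m := by simp
    rw [h2, aeval_algebraMap_apply_eq_algebraMap_eval]
    simp
  have hG1 : ∀ σ, ‖aeval ((a σ : ℤ) : ℤ_[p]) G‖ < 1 := by
    intro σ
    rw [haevp, PadicInt.norm_int_lt_one_iff_dvd, ← hcast, haev, hyG, map_zero]
  have hG'1 : ∀ σ, ‖aeval ((a σ : ℤ) : ℤ_[p]) (derivative G)‖ = 1 := by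
    intro σ
    rw [haevp]
    apply hnorm1
    rw [← hcast, haev]
    exact hφ0 _ _ (hN₁ σ) (hpN₁ σ) (hd₁ σ)
  have ha1 : ∀ σ τ, σ ≠ τ → ‖((a σ : ℤ) : ℤ_[p]) - ((a τ : ℤ) : ℤ_[p])‖ = 1 := by
    intro σ τ hne
    rw [← Int.cast_sub]
    apply hnorm1
    rw [← hcast]
    push_cast
    rw [ha, ha, ← map_sub]
    exact hφ0 _ _ (hN₂ ⟨(σ, τ), hne⟩) (hpN₂ ⟨(σ, τ), hne⟩) (hd₂ ⟨(σ, τ), hne⟩)
  let e : Fin G.natDegree ≃ Gal(L/ℚ) := (finCongr hdeg).trans (Finite.equivFin _).symm
  intro x hxG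
  refine mem_TP_of_hensel G hGm rfl (fun i => a (e i)) ?_ ?_ x hxG
  · intro i
    rw [hG'1, one_pow]
    exact hG1 _
  · intro i l hil
    rw [hG'1, ha1 _ _ (fun h => hil (e.injective h))]

/-- **Finitely many algebraic numbers are totally `p`-adic for infinitely many primes `p`.** -/
theorem exists_prime_TP (A : Set Qb) (hA : A.Finite) (B : ℕ) :
    ∃ p : ℕ, ∃ hp : p.Prime, B < p ∧ ∀ x ∈ A, x ∈ TP p hp := by
  -- a finite Galois extension
  have hfin : FiniteDimensional ℚ (IntermediateField.adjoin ℚ A) := by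
    have := hA.to_subtype
    exact IntermediateField.finiteDimensional_adjoin fun x _ => qb_isIntegral x
  set E := IntermediateField.normalClosure ℚ (IntermediateField.adjoin ℚ A) Qb with hE
  have hAE : A ⊆ E := (IntermediateField.subset_adjoin ℚ A).trans
    (IntermediateField.le_normalClosure _)
  have hfE : FiniteDimensional ℚ E := inferInstance
  have hnE : Normal ℚ E := normalClosure.normal ℚ (IntermediateField.adjoin ℚ A) Qb
  have hnf : NumberField E := ⟨⟩
  have hgal : IsGalois ℚ E := ⟨⟩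
  obtain ⟨θ, hθ⟩ := Field.exists_primitive_element ℚ E
  -- an integral multiple
  obtain ⟨m, hm, hmi⟩ : ∃ m : ℤ, m ≠ 0 ∧ IsIntegral ℤ (m • θ) := by
    have h1 : IsAlgebraic ℤ θ := by
      have h2 : IsAlgebraic ℚ θ := Algebra.IsAlgebraic.isAlgebraic θ
      rwa [← IsFractionRing.isAlgebraic_iff ℤ ℚ E] at h2
    exact h1.exists_integral_multiple
  set θ' : 𝓞 E := ⟨m • θ, hmi⟩ with hθ'
  have hθ'top : IntermediateField.adjoin ℚ {(θ' : E)} = ⊤ := by
    rw [eq_top_iff, ← hθ, IntermediateField.adjoin_simple_le_iff]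
    have h1 : θ = (m : E)⁻¹ * (θ' : E) := by
      have h2 : (θ' : E) = (m : E) * θ := by
        rw [← zsmul_eq_mul]
        rfl
      have hm' : (m : E) ≠ 0 := by exact_mod_cast hm
      rw [h2, inv_mul_cancel_left₀ hm']
    rw [h1]
    refine mul_mem (inv_mem ?_) (IntermediateField.mem_adjoin_simple_self ℚ _)
    exact intCast_mem _ m
  obtain ⟨p, hp, hpB, h⟩ := key_split θ' hθ'top B
  refine ⟨p, hp, hpB, fun x hx => ?_⟩
  have hθTP : ((θ' : E) : Qb) ∈ TP p hp := by
    apply h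
    have h1 : aeval (algebraMap E Qb (θ' : E)) (minpoly ℤ (θ' : E)) =
        algebraMap E Qb (aeval (θ' : E) (minpoly ℤ (θ' : E))) :=
      aeval_algebraMap_apply Qb (θ' : E) _
    rw [minpoly.aeval, map_zero] at h1
    exact h1
  -- elements of `E` are rational expressions in `θ'`
  have key : ∀ z : E, z ∈ IntermediateField.adjoin ℚ {(θ' : E)} → (z : Qb) ∈ TP p hp := by
    intro z hz
    induction hz using IntermediateField.adjoin_induction with
    | mem x hx =>
      rw [Set.mem_singleton_iff] at hx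
      rw [hx]
      exact hθTP
    | algebraMap x => exact (TP p hp).algebraMap_mem x
    | add x y _ _ hx hy => exact add_mem hx hy
    | inv x _ hx => exact inv_mem hx
    | mul x y _ _ hx hy => exact mul_mem hx hy
  exact key ⟨x, hAE hx⟩ (by rw [hθ'top]; exact IntermediateField.mem_top)

end Pool.Agent.Q281.UN
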