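import Mathlib
import Pool.Agent.Q281.UN.Alpha
import Pool.Agent.Q281.UN.Split

set_option autoImplicit false

/-!
# A sparse sequence of primes `p` and infinitely many algebraic numbers of bounded height which are
totally `p`-adic for all of them
-/

namespace Pool.Agent.Q281.UN

open Pool.Agent.Q281.USB
open Pool.Agent.H58P (Qb ht qb_isIntegral)

lemma exists_bound_prime (n : ℕ) : ∃ b : ℕ, ∀ p : ℕ, b < p →
    Real.log p / ((p : ℝ) - 1) ≤ (1 / 2) ^ (n + 1) := by
  have h1 := Real.tendsto_pow_log_div_mul_add_atTop 1 (-1) 1 one_ne_zero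
  have h2 := h1.comp (tendsto_natCast_atTop_atTop (R := ℝ))
  have h3 := h2.eventually_le_const (show (0 : ℝ) < (1 / 2) ^ (n + 1) by positivity)
  rw [Filter.eventually_atTop] at h3
  obtain ⟨b, hb⟩ := h3
  refine ⟨b, fun p hp => ?_⟩
  have h4 := hb p hp.le
  simp only [Function.comp_apply, pow_one, one_mul] at h4
  rw [sub_eq_add_neg]
  exact h4

lemma countable_Qb : Countable Qb := by
  have h1 := Algebra.IsAlgebraic.cardinalMk_le_max ℚ Qb
  rw [← Cardinal.mk_le_aleph0_iff]
  refine h1.trans ?_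
  simp

/-- **The construction.** -/
theorem exists_seq : ∃ (p : ℕ → ℕ) (hp : ∀ n, (p n).Prime) (α : ℕ → Qb),
    (∀ n, n < p n) ∧ (∀ k j, α k ∈ TP (p j) (hp j)) ∧
    (∀ x : Qb, ∃ k, ∀ j, k ≤ j → x ∈ TP (p j) (hp j)) ∧
    (∀ k, ht (α k) ≤ 3) ∧ ∀ k, k < (minpoly ℚ (α k)).natDegree := by
  classical
  have hcount := countable_Qb
  obtain ⟨e, he⟩ := exists_surjective_nat Qb
  choose b hb using exists_bound_prime
  -- choices
  have h1 : ∀ (S : Finset ℕ) (n : ℕ), ∃ α : Qb, (∀ p ∈ S, p.Prime ∧ p ≠ 2) →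
      ((∀ (p : ℕ) (hp : p.Prime), p ∈ S → α ∈ TP p hp) ∧ n < (minpoly ℚ α).natDegree ∧
        ht α ≤ 2 * ∑ p ∈ S, Real.log p / ((p : ℝ) - 1) + 1) := by
    intro S n
    by_cases hS : ∀ p ∈ S, p.Prime ∧ p ≠ 2
    · obtain ⟨α, h⟩ := exists_alpha S hS n
      exact ⟨α, fun _ => h⟩
    · exact ⟨0, fun h => absurd h hS⟩
  choose fα hα using h1
  have h2 : ∀ (A : Finset Qb) (B : ℕ), ∃ p : ℕ, ∃ hp : p.Prime, B < p ∧ ∀ x ∈ A, x ∈ TP p hp :=
    fun A B => exists_prime_TP A A.finite_toSet B
  choose fp hfp hfpB hfpA using h2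
  let step : ℕ → Finset ℕ × Finset Qb → Finset ℕ × Finset Qb := fun n s =>
    (insert (fp (insert (e n) (insert (fα s.1 n) s.2)) (max (max n 2) (max (b n) (s.1.sup id)))) s.1,
      insert (e n) (insert (fα s.1 n) s.2))
  let st : ℕ → Finset ℕ × Finset Qb := fun n => Nat.rec (∅, ∅) step n
  have hst : ∀ n, st (n + 1) = step n (st n) := fun n => rfl
  let α : ℕ → Qb := fun n => fα (st n).1 n
  let A : ℕ → Finset Qb := fun n => insert (e n) (insert (α n) (st n).2)
  let p : ℕ → ℕ := fun n => fp (A n) (max (max n 2) (max (b n) ((st n).1.sup id)))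
  have hp : ∀ n, (p n).Prime := fun n => hfp _ _
  have hst1 : ∀ n, (st (n + 1)).1 = insert (p n) (st n).1 := fun n => rfl
  have hst2 : ∀ n, (st (n + 1)).2 = A n := fun n => rfl
  have hpB : ∀ n, max (max n 2) (max (b n) ((st n).1.sup id)) < p n := fun n => hfpB _ _
  have hpA : ∀ n, ∀ x ∈ A n, x ∈ TP (p n) (hp n) := fun n => hfpA _ _
  have hst0 : st 0 = (∅, ∅) := rfl
  clear_value st
  have hmono1 : ∀ m n, m ≤ n → (st m).1 ⊆ (st n).1 := by
    intro m n hmn
    induction n, hmn using Nat.le_induction with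
    | base => exact subset_rfl
    | succ n _ ih =>
      rw [hst1]
      exact ih.trans (Finset.subset_insert _ _)
  have hmono2 : ∀ m n, m ≤ n → (st m).2 ⊆ (st n).2 := by
    intro m n hmn
    induction n, hmn using Nat.le_induction with
    | base => exact subset_rfl
    | succ n _ ih =>
      rw [hst2]
      exact ih.trans ((Finset.subset_insert _ _).trans (Finset.subset_insert _ _))
  have hinv : ∀ n, (∀ q ∈ (st n).1, q.Prime ∧ q ≠ 2) ∧
      ∑ q ∈ (st n).1, Real.log q / ((q : ℝ) - 1) ≤ 1 - (1 / 2) ^ n := by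
    intro n
    induction n with
    | zero =>
      rw [hst0]
      simp
    | succ n ih =>
      have hB := hpB n
      have h2p : 2 < p n := ((le_max_right n 2).trans (le_max_left _ _)).trans_lt hB
      have hbp : b n < p n := ((le_max_left (b n) _).trans (le_max_right _ _)).trans_lt hB
      have hsup : (st n).1.sup id < p n :=
        ((le_max_right (b n) _).trans (le_max_right _ _)).trans_lt hB
      have hnot : p n ∉ (st n).1 := by
        intro h
        have h3 : p n ≤ (st n).1.sup id := Finset.le_sup (f := id) h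
        omega
      rw [hst1]
      refine ⟨?_, ?_⟩
      · intro q hq
        rcases Finset.mem_insert.mp hq with rfl | hq
        · exact ⟨hp n, by omega⟩
        · exact ih.1 q hq
      · rw [Finset.sum_insert hnot]
        have h3 := hb n (p n) hbp
        have h4 := ih.2
        have h5 : (1 / 2 : ℝ) ^ (n + 1) = (1 / 2) ^ n / 2 := by rw [pow_succ]; ring
        rw [h5] at h3 ⊢
        linarith
  have hαmem : ∀ k j, k ≤ j → α k ∈ A j := by
    intro k j hkj
    rw [← hst2 j]
    apply hmono2 (k + 1) (j + 1) (by omega)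
    rw [hst2]
    exact Finset.mem_insert_of_mem (Finset.mem_insert_self _ _)
  have hemem : ∀ k j, k ≤ j → e k ∈ A j := by
    intro k j hkj
    rw [← hst2 j]
    apply hmono2 (k + 1) (j + 1) (by omega)
    rw [hst2]
    exact Finset.mem_insert_self _ _
  have hpmem : ∀ j k, j < k → p j ∈ (st k).1 := by
    intro j k hjk
    apply hmono1 (j + 1) k (by omega)
    rw [hst1]
    exact Finset.mem_insert_self _ _
  refine ⟨p, hp, α, ?_, ?_, ?_, ?_, ?_⟩
  · intro n
    exact ((le_max_left n 2).trans (le_max_left _ _)).trans_lt (hpB n)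
  · intro k j
    rcases Nat.lt_or_ge j k with h | h
    · exact (hα (st k).1 k (hinv k).1).1 (p j) (hp j) (hpmem j k h)
    · exact hpA j _ (hαmem k j h)
  · intro x
    obtain ⟨k, rfl⟩ := he x
    exact ⟨k, fun j hj => hpA j _ (hemem k j hj)⟩
  · intro k
    have h3 := (hα (st k).1 k (hinv k).1).2.2
    have h4 := (hinv k).2
    have h5 : (0 : ℝ) < (1 / 2) ^ k := by positivity
    show ht (fα (st k).1 k) ≤ 3
    linarith
  · intro k
    exact (hα (st k).1 k (hinv k).1).2.1

/-- the intersection of the fields of the totally `p`-adic numbers -/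
noncomputable def FS (p : ℕ → ℕ) (hp : ∀ n, (p n).Prime) : IntermediateField ℚ Qb :=
  ⨅ n, TP (p n) (hp n)

lemma mem_FS (p : ℕ → ℕ) (hp : ∀ n, (p n).Prime) (x : Qb) :
    x ∈ FS p hp ↔ ∀ n, x ∈ TP (p n) (hp n) := by
  rw [FS, ← SetLike.mem_coe, IntermediateField.coe_iInf, Set.mem_iInter]
  rfl

end Pool.Agent.Q281.UN
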