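import Mathlib
import Pool.Agent.Q281.UN.Rec
import Pool.Agent.Q281.USB.HtB
import Pool.Agent.H58W.HtLimit

set_option autoImplicit false

/-!
# Reduction of the iterates of a rational map at valuations above a large prime
-/

namespace Pool.Agent.Q281.UN

open Polynomial
open Pool.Agent.Q281.USB
open Pool.Agent.H58P (Qb ht qb_isIntegral)
open Pool.Agent.H58W (hev lift hev_reflect coprime_reflect)

variable (V : ValuationSubring Qb)

/-- the norm of a vector -/
noncomputable def nm (u : Qb × Qb) : V.ValueGroup := max (V.valuation u.1) (V.valuation u.2)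

/-- the wedge product -/
noncomputable def wedge (u w : Qb × Qb) : Qb := u.1 * w.2 - u.2 * w.1

/-- congruence of points of the projective line -/
def Cong (u w : Qb × Qb) : Prop := V.valuation (wedge u w) < nm V u * nm V w

lemma nm_pos {u : Qb × Qb} (hu : u ≠ 0) : 0 < nm V u := by
  rw [nm, lt_max_iff]
  by_contra hcon
  push Not at hcon
  apply hu
  have h1 : u.1 = 0 := by
    rw [← map_eq_zero V.valuation]
    exact le_antisymm hcon.1 zero_le
  have h2 : u.2 = 0 := by
    rw [← map_eq_zero V.valuation]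
    exact le_antisymm hcon.2 zero_le
  exact Prod.ext h1 h2

lemma exists_scale {u : Qb × Qb} (hu : u ≠ 0) : ∃ l x y : Qb, l ≠ 0 ∧
    V.valuation l = nm V u ∧ u = (l * x, l * y) ∧ V.valuation x ≤ 1 ∧ V.valuation y ≤ 1 ∧
    (x = 1 ∨ y = 1) := by
  have hpos := nm_pos V hu
  rcases le_total (V.valuation u.1) (V.valuation u.2) with h | h
  · have e : nm V u = V.valuation u.2 := max_eq_right h
    have h0 : u.2 ≠ 0 := by
      intro h0
      rw [e, h0, map_zero] at hpos
      exact lt_irrefl _ hpos
    refine ⟨u.2, u.1 / u.2, 1, h0, e.symm, ?_, ?_, by simp, Or.inr rfl⟩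
    · rw [mul_one, mul_div_cancel₀ _ h0]
    · rw [map_div₀]
      exact div_le_one_of_le₀ h zero_le
  · have e : nm V u = V.valuation u.1 := max_eq_left h
    have h0 : u.1 ≠ 0 := by
      intro h0
      rw [e, h0, map_zero] at hpos
      exact lt_irrefl _ hpos
    refine ⟨u.1, 1, u.2 / u.1, h0, e.symm, ?_, by simp, ?_, Or.inl rfl⟩
    · rw [mul_one, mul_div_cancel₀ _ h0]
    · rw [map_div₀]
      exact div_le_one_of_le₀ h zero_le

lemma hev_smul (P : Qb[X]) (d : ℕ) (l x y : Qb) :
    hev P d (l * x) (l * y) = l ^ d * hev P d x y := by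
  unfold hev
  rw [Finset.mul_sum]
  refine Finset.sum_congr rfl fun i hi => ?_
  have hi' : i ≤ d := by
    have := Finset.mem_range.mp hi
    omega
  have : l ^ d = l ^ i * l ^ (d - i) := by rw [← pow_add]; congr 1; omega
  rw [this, mul_pow, mul_pow]
  ring

lemma lt_one_mul {x y x' y' : Qb} (hy : V.valuation y ≤ 1)
    (hx' : V.valuation x' ≤ 1)
    (h1 : V.valuation (x - x') < 1) (h2 : V.valuation (y - y') < 1) :
    V.valuation (x * y - x' * y') < 1 := by
  have e : x * y - x' * y' = (x - x') * y + x' * (y - y') := by ring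
  rw [e]
  refine lt_of_le_of_lt (V.valuation.map_add _ _) (max_lt ?_ ?_)
  · rw [map_mul]
    exact mul_lt_one_of_lt_of_le h1 hy
  · rw [map_mul, mul_comm]
    exact mul_lt_one_of_lt_of_le h2 hx'

lemma lt_one_pow {x x' : Qb} (hx : V.valuation x ≤ 1) (hx' : V.valuation x' ≤ 1)
    (h : V.valuation (x - x') < 1) (n : ℕ) : V.valuation (x ^ n - x' ^ n) < 1 := by
  induction n with
  | zero => simp
  | succ n ih =>
    rw [pow_succ, pow_succ]
    exact lt_one_mul V hx (by rw [map_pow]; exact pow_le_one₀ zero_le hx') ih h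

lemma hev_le {P : Qb[X]} (hP : ∀ i, V.valuation (P.coeff i) ≤ 1) (d : ℕ) {x y : Qb}
    (hx : V.valuation x ≤ 1) (hy : V.valuation y ≤ 1) : V.valuation (hev P d x y) ≤ 1 := by
  unfold hev
  apply Valuation.map_sum_le
  intro i _
  rw [map_mul, map_mul, map_pow, map_pow]
  exact mul_le_one' (mul_le_one' (hP i) (pow_le_one₀ zero_le hx)) (pow_le_one₀ zero_le hy)

lemma hev_congr {P : Qb[X]} (hP : ∀ i, V.valuation (P.coeff i) ≤ 1) (d : ℕ) {x y x' y' : Qb}
    (hx : V.valuation x ≤ 1) (hy : V.valuation y ≤ 1) (hx' : V.valuation x' ≤ 1)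
    (hy' : V.valuation y' ≤ 1) (h1 : V.valuation (x - x') < 1) (h2 : V.valuation (y - y') < 1) :
    V.valuation (hev P d x y - hev P d x' y') < 1 := by
  unfold hev
  rw [← Finset.sum_sub_distrib]
  apply Valuation.map_sum_lt _ one_ne_zero
  intro i _
  have h3 := lt_one_mul V (x := x ^ i) (y := y ^ (d - i)) (x' := x' ^ i) (y' := y' ^ (d - i))
    (by rw [map_pow]; exact pow_le_one₀ zero_le hy) (by rw [map_pow]; exact pow_le_one₀ zero_le hx')
    (lt_one_pow V hx hx' h1 i) (lt_one_pow V hy hy' h2 (d - i))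
  have e : P.coeff i * x ^ i * y ^ (d - i) - P.coeff i * x' ^ i * y' ^ (d - i) =
      (x ^ i * y ^ (d - i) - x' ^ i * y' ^ (d - i)) * P.coeff i := by ring
  rw [e, map_mul]
  exact mul_lt_one_of_lt_of_le h3 (hP i)

/-- good reduction -/
structure Good (P Q : Qb[X]) (d : ℕ) : Prop where
  cP : ∀ i, V.valuation (P.coeff i) ≤ 1
  cQ : ∀ i, V.valuation (Q.coeff i) ≤ 1
  low : ∀ x y, V.valuation x ≤ 1 → V.valuation y ≤ 1 → (x = 1 ∨ y = 1) →
    1 ≤ max (V.valuation (hev P d x y)) (V.valuation (hev Q d x y))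

variable {V}

lemma Good.nm_lift {P Q : Qb[X]} {d : ℕ} (h : Good V P Q d) {u : Qb × Qb} (hu : u ≠ 0) :
    nm V (lift P Q d u) = nm V u ^ d := by
  obtain ⟨l, x, y, hl, hlu, hu', hx, hy, hxy⟩ := exists_scale V hu
  rw [← hlu, hu']
  show max (V.valuation (hev P d (l * x) (l * y))) (V.valuation (hev Q d (l * x) (l * y))) = _
  rw [hev_smul, hev_smul, map_mul, map_mul, map_pow, max_mul_mul_left]
  have h1 : max (V.valuation (hev P d x y)) (V.valuation (hev Q d x y)) = 1 :=
    le_antisymm (max_le (hev_le V h.cP d hx hy) (hev_le V h.cQ d hx hy)) (h.low x y hx hy hxy)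
  rw [h1, mul_one]

lemma Good.lift_ne {P Q : Qb[X]} {d : ℕ} (h : Good V P Q d) {u : Qb × Qb} (hu : u ≠ 0) :
    lift P Q d u ≠ 0 := by
  intro h0
  have h1 := h.nm_lift hu
  rw [h0] at h1
  have h2 : nm V (0 : Qb × Qb) = 0 := by simp [nm]
  rw [h2] at h1
  exact (pow_ne_zero d (nm_pos V hu).ne') h1.symm

lemma Cong.symm {u w : Qb × Qb} (h : Cong V u w) : Cong V w u := by
  unfold Cong at h ⊢
  have e : wedge w u = -wedge u w := by unfold wedge; ring
  rw [e, Valuation.map_neg, mul_comm]
  exact h

lemma Cong.refl {u : Qb × Qb} (hu : u ≠ 0) : Cong V u u := by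
  unfold Cong
  have e : wedge u u = 0 := by unfold wedge; ring
  rw [e, map_zero]
  exact mul_pos (nm_pos V hu) (nm_pos V hu)

lemma Cong.trans {u w t : Qb × Qb} (hu : u ≠ 0) (hw : w ≠ 0) (ht : t ≠ 0)
    (h1 : Cong V u w) (h2 : Cong V w t) : Cong V u t := by
  unfold Cong at h1 h2 ⊢
  have hu0 := nm_pos V hu
  have ht0 := nm_pos V ht
  have hw0 := nm_pos V hw
  have key : ∀ a b c : Qb, V.valuation a = nm V w → V.valuation b ≤ nm V u →
      V.valuation c ≤ nm V t → a * wedge u t = b * wedge w t + c * wedge u w →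
      V.valuation (wedge u t) < nm V u * nm V t := by
    intro a b c ha hb hc he
    have h3 : V.valuation (a * wedge u t) < nm V w * (nm V u * nm V t) := by
      rw [he]
      refine lt_of_le_of_lt (V.valuation.map_add _ _) (max_lt ?_ ?_)
      · rw [map_mul]
        calc V.valuation b * V.valuation (wedge w t) ≤ nm V u * V.valuation (wedge w t) :=
              mul_le_mul_left hb _
          _ < nm V u * (nm V w * nm V t) := mul_lt_mul_of_pos_left h2 hu0
          _ = _ := by ac_rfl
      · rw [map_mul]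
        calc V.valuation c * V.valuation (wedge u w) ≤ nm V t * V.valuation (wedge u w) :=
              mul_le_mul_left hc _
          _ < nm V t * (nm V u * nm V w) := mul_lt_mul_of_pos_left h1 ht0
          _ = _ := by ac_rfl
    rw [map_mul, ha] at h3
    exact lt_of_mul_lt_mul_left h3 zero_le
  rcases le_total (V.valuation w.1) (V.valuation w.2) with h | h
  · exact key w.2 u.2 t.2 (max_eq_right h).symm (le_max_right _ _) (le_max_right _ _)
      (by unfold wedge; ring)
  · exact key w.1 u.1 t.1 (max_eq_left h).symm (le_max_left _ _) (le_max_left _ _)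
      (by unfold wedge; ring)

/-- congruence of points is preserved by maps of good reduction -/
lemma Cong.lift {P Q : Qb[X]} {d : ℕ} (h : Good V P Q d) {u w : Qb × Qb} (hu : u ≠ 0)
    (hw : w ≠ 0) (hc : Cong V u w) : Cong V (lift P Q d u) (lift P Q d w) := by
  have e1 := h.nm_lift hu
  have e2 := h.nm_lift hw
  unfold Cong at hc ⊢
  rw [e1, e2]
  obtain ⟨l, x, y, hl, hlu, hu', hx, hy, -⟩ := exists_scale V hu
  obtain ⟨m, x', y', hm, hmw, hw', hx', hy', hxy'⟩ := exists_scale V hw
  rw [← hlu, ← hmw]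
  rw [← hlu, ← hmw] at hc
  have hl0 : 0 < V.valuation l := zero_lt_iff.mpr ((Valuation.ne_zero_iff _).mpr hl)
  have hm0 : 0 < V.valuation m := zero_lt_iff.mpr ((Valuation.ne_zero_iff _).mpr hm)
  have h1 : V.valuation (x * y' - y * x') < 1 := by
    have e3 : wedge u w = l * m * (x * y' - y * x') := by
      rw [hu', hw']
      unfold wedge
      ring
    rw [e3, map_mul, map_mul] at hc
    have h2 : V.valuation l * V.valuation m * V.valuation (x * y' - y * x') <
        V.valuation l * V.valuation m * 1 := by rwa [mul_one]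
    exact lt_of_mul_lt_mul_left h2 zero_le
  -- the reduced inequality
  have key : ∀ c : Qb, V.valuation c ≤ 1 → V.valuation (x - c * x') < 1 →
      V.valuation (y - c * y') < 1 →
      V.valuation (hev P d x y * hev Q d x' y' - hev Q d x y * hev P d x' y') < 1 := by
    intro c hc1 hcx hcy
    have hcx' : V.valuation (c * x') ≤ 1 := by rw [map_mul]; exact mul_le_one' hc1 hx'
    have hcy' : V.valuation (c * y') ≤ 1 := by rw [map_mul]; exact mul_le_one' hc1 hy'
    have h3 := hev_congr V h.cP d hx hy hcx' hcy' hcx hcy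
    have h4 := hev_congr V h.cQ d hx hy hcx' hcy' hcx hcy
    rw [hev_smul] at h3 h4
    have e3 : hev P d x y * hev Q d x' y' - hev Q d x y * hev P d x' y' =
        (hev P d x y - c ^ d * hev P d x' y') * hev Q d x' y' -
        (hev Q d x y - c ^ d * hev Q d x' y') * hev P d x' y' := by ring
    rw [e3]
    refine lt_of_le_of_lt (V.valuation.map_sub _ _) (max_lt ?_ ?_)
    · rw [map_mul]
      exact mul_lt_one_of_lt_of_le h3 (hev_le V h.cQ d hx' hy')
    · rw [map_mul]
      exact mul_lt_one_of_lt_of_le h4 (hev_le V h.cP d hx' hy')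
  have h2 : V.valuation (hev P d x y * hev Q d x' y' - hev Q d x y * hev P d x' y') < 1 := by
    rcases hxy' with rfl | rfl
    · apply key x hx
      · simp
      · rw [← Valuation.map_neg]
        convert h1 using 2
        ring
    · apply key y hy
      · convert h1 using 2
        ring
      · simp
  have e3 : wedge (Pool.Agent.H58W.lift P Q d u) (Pool.Agent.H58W.lift P Q d w) =
      l ^ d * m ^ d * (hev P d x y * hev Q d x' y' - hev Q d x y * hev P d x' y') := by
    rw [hu', hw']
    show hev P d (l * x) (l * y) * hev Q d (m * x') (m * y') -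
      hev Q d (l * x) (l * y) * hev P d (m * x') (m * y') = _
    rw [hev_smul, hev_smul, hev_smul, hev_smul]
    ring
  rw [e3, map_mul, map_mul, map_pow, map_pow]
  have h3 : 0 < V.valuation l ^ d * V.valuation m ^ d :=
    mul_pos (pow_pos hl0 d) (pow_pos hm0 d)
  calc _ < V.valuation l ^ d * V.valuation m ^ d * 1 := mul_lt_mul_of_pos_left h2 h3
    _ = _ := mul_one _

end Pool.Agent.Q281.UN
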