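import Mathlib
import Pool.Agent.Q281.UN.Dyn

set_option autoImplicit false

/-!
# Good reduction at large primes, the pigeonhole principle and the height inequality
-/

namespace Pool.Agent.Q281.UN

open Polynomial
open Pool.Agent.Helper259.AbsHt
open Pool.Agent.Q281.USB
open Pool.Agent.H58P (Qb ht qb_isIntegral)
open Pool.Agent.H58W (hev lift hev_reflect coprime_reflect)

lemma exists_large (x : Qb) : ∃ N : ℕ, ∀ p : ℕ, p.Prime → N < p →
    ∀ V : ValuationSubring Qb, Above p V → V.valuation x ≤ 1 := by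
  obtain ⟨m, hm, h⟩ := exists_den x
  refine ⟨m, fun p hp hmp V hV => ?_⟩
  have h1 : V.valuation (m : Qb) = 1 := by
    apply val_natCast_eq_one V hV
    rw [Nat.Prime.coprime_iff_not_dvd hp]
    intro h2
    exact absurd (Nat.le_of_dvd (Nat.pos_of_ne_zero hm) h2) (not_le.mpr hmp)
  have h2 := val_le_one_of_isIntegral V h
  rwa [map_mul, h1, one_mul] at h2

lemma exists_large_poly (P : Qb[X]) : ∃ N : ℕ, ∀ p : ℕ, p.Prime → N < p →
    ∀ V : ValuationSubring Qb, Above p V → ∀ i, V.valuation (P.coeff i) ≤ 1 := by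
  choose N hN using exists_large
  refine ⟨P.support.sup fun i => N (P.coeff i), fun p hp hNp V hV i => ?_⟩
  by_cases hi : i ∈ P.support
  · refine hN _ p hp (lt_of_le_of_lt ?_ hNp) V hV
    exact Finset.le_sup (f := fun i => N (P.coeff i)) hi
  · rw [notMem_support_iff.mp hi, map_zero]
    exact zero_le

lemma hev_one (P : Qb[X]) (d : ℕ) (hP : P.natDegree ≤ d) (x : Qb) :
    hev P d x 1 = P.eval x := by
  rw [eval_eq_sum_range' (Nat.lt_succ_of_le hP)]
  unfold hev
  simp

lemma natDegree_reflect_le' (P : Qb[X]) (d : ℕ) (hP : P.natDegree ≤ d) :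
    (P.reflect d).natDegree ≤ d := by
  rw [natDegree_le_iff_coeff_eq_zero]
  intro n hn
  rw [coeff_reflect, revAt_eq_self_of_lt hn]
  exact coeff_eq_zero_of_natDegree_lt (by omega)

lemma hev_one' (P : Qb[X]) (d : ℕ) (hP : P.natDegree ≤ d) (y : Qb) :
    hev P d 1 y = (P.reflect d).eval y := by
  rw [← hev_reflect, hev_one _ _ (natDegree_reflect_le' P d hP)]

lemma eval_le (V : ValuationSubring Qb) (P : Qb[X]) (hP : ∀ i, V.valuation (P.coeff i) ≤ 1)
    {x : Qb} (hx : V.valuation x ≤ 1) : V.valuation (P.eval x) ≤ 1 := by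
  rw [eval_eq_sum_range]
  apply Valuation.map_sum_le
  intro i _
  rw [map_mul, map_pow]
  exact mul_le_one' (hP i) (pow_le_one₀ zero_le hx)

theorem exists_good (P Q : Qb[X]) (d : ℕ) (hd : max P.natDegree Q.natDegree = d) (hd1 : 1 ≤ d)
    (hco : IsCoprime P Q) : ∃ N : ℕ, ∀ p : ℕ, p.Prime → N < p →
    ∀ V : ValuationSubring Qb, Above p V → Good V P Q d := by
  have hPd : P.natDegree ≤ d := hd ▸ le_max_left _ _
  have hQd : Q.natDegree ≤ d := hd ▸ le_max_right _ _
  obtain ⟨a, b, hab⟩ := hco
  obtain ⟨a', b', hab'⟩ := coprime_reflect P Q d hd hd1 ⟨a, b, hab⟩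
  choose N hN using exists_large_poly
  refine ⟨max (max (N P) (N Q)) (max (max (N a) (N b)) (max (N a') (N b'))),
    fun p hp hNp V hV => ?_⟩
  simp only [max_lt_iff] at hNp
  obtain ⟨⟨h1, h2⟩, ⟨h3, h4⟩, h5, h6⟩ := hNp
  have gen : ∀ a b P Q : Qb[X], (∀ i, V.valuation (a.coeff i) ≤ 1) →
      (∀ i, V.valuation (b.coeff i) ≤ 1) → a * P + b * Q = 1 → ∀ x : Qb, V.valuation x ≤ 1 →
      1 ≤ max (V.valuation (P.eval x)) (V.valuation (Q.eval x)) := by
    intro a b P Q ha hb h x hx
    by_contra hcon
    rw [not_le, max_lt_iff] at hcon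
    have h7 := congrArg (fun R : Qb[X] => V.valuation (R.eval x)) h
    simp only [eval_add, eval_mul, eval_one, map_one] at h7
    have h8 : V.valuation (a.eval x * P.eval x + b.eval x * Q.eval x) < 1 := by
      refine lt_of_le_of_lt (V.valuation.map_add _ _) (max_lt ?_ ?_)
      · rw [map_mul, mul_comm]
        exact mul_lt_one_of_lt_of_le hcon.1 (eval_le V a ha hx)
      · rw [map_mul, mul_comm]
        exact mul_lt_one_of_lt_of_le hcon.2 (eval_le V b hb hx)
    rw [h7] at h8
    exact lt_irrefl _ h8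
  refine ⟨hN P p hp h1 V hV, hN Q p hp h2 V hV, ?_⟩
  rintro x y hx hy (rfl | rfl)
  · rw [hev_one' P d hPd, hev_one' Q d hQd]
    exact gen a' b' _ _ (hN a' p hp h5 V hV) (hN b' p hp h6 V hV) hab' y hy
  · rw [hev_one P d hPd, hev_one Q d hQd]
    exact gen a b _ _ (hN a p hp h3 V hV) (hN b p hp h4 V hV) hab x hx

/-- the points over the prime field -/
noncomputable def vec {p : ℕ} (o : Option (Fin p)) : Qb × Qb :=
  o.elim (1, 0) fun a => (((a : ℕ) : Qb), 1)

lemma vec_ne {p : ℕ} (o : Option (Fin p)) : vec o ≠ 0 := by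
  rcases o with _ | a
  · intro h
    have := congrArg Prod.fst h
    simp [vec] at this
  · intro h
    have := congrArg Prod.snd h
    simp [vec] at this

lemma exists_code {p : ℕ} (hp : p.Prime) (V : ValuationSubring Qb) (hV : Above p V)
    (u : Qb × Qb) (hu : u ≠ 0) (h1 : u.1 ∈ TP p hp) (h2 : u.2 ∈ TP p hp) :
    ∃ o : Option (Fin p), Cong V u (vec o) := by
  have hpos := nm_pos V hu
  rcases le_or_gt (V.valuation u.1) (V.valuation u.2) with h | h
  · have e : nm V u = V.valuation u.2 := max_eq_right h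
    have h0 : u.2 ≠ 0 := by
      intro h0
      rw [e, h0, map_zero] at hpos
      exact lt_irrefl _ hpos
    obtain ⟨a, ha⟩ := exists_residue V hp hV (x := u.1 / u.2) (div_mem h1 h2) (by
      rw [map_div₀]
      exact div_le_one_of_le₀ h zero_le)
    refine ⟨some a, ?_⟩
    unfold Cong
    have e2 : nm V (vec (some a)) = 1 := by
      show max (V.valuation ((a : ℕ) : Qb)) (V.valuation 1) = 1
      rw [map_one]
      exact max_eq_right (val_le_one_of_isIntegral V (isIntegral_natCast _))
    have e3 : wedge u (vec (some a)) = u.2 * (u.1 / u.2 - ((a : ℕ) : Qb)) := by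
      show u.1 * 1 - u.2 * ((a : ℕ) : Qb) = _
      field_simp
    rw [e2, e, e3, map_mul]
    exact mul_lt_mul_of_pos_left ha (e ▸ hpos)
  · have e : nm V u = V.valuation u.1 := max_eq_left h.le
    refine ⟨none, ?_⟩
    unfold Cong
    have e2 : nm V (vec (p := p) none) = 1 := by
      show max (V.valuation 1) (V.valuation 0) = 1
      rw [map_one, map_zero]
      exact max_eq_left zero_le
    have e3 : wedge u (vec (p := p) none) = -u.2 := by
      show u.1 * 0 - u.2 * 1 = _
      ring
    rw [e2, e, e3, Valuation.map_neg, mul_one]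
    exact h

/-- the pigeonhole principle -/
theorem pigeon {p : ℕ} (hp : p.Prime) (V : ValuationSubring Qb) (hV : Above p V)
    {P Q : Qb[X]} {d : ℕ} (hG : Good V P Q d) (u : Qb × Qb) (hu : u ≠ 0)
    (hmem : ∀ n, ((lift P Q d)^[n] u).1 ∈ TP p hp ∧ ((lift P Q d)^[n] u).2 ∈ TP p hp) :
    Cong V ((lift P Q d)^[p + 1] u) ((lift P Q d)^[p + 1 + (p + 1).factorial] u) := by
  set U : ℕ → Qb × Qb := fun n => (lift P Q d)^[n] u with hU
  have hsucc : ∀ n, U (n + 1) = lift P Q d (U n) := fun n => by
    rw [hU]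
    simp only
    rw [Function.iterate_succ_apply']
  have hne : ∀ n, U n ≠ 0 := by
    intro n
    induction n with
    | zero => exact hu
    | succ n ih =>
      rw [hsucc]
      exact hG.lift_ne ih
  have hcode : ∀ n, ∃ o : Option (Fin p), Cong V (U n) (vec o) := fun n =>
    exists_code hp V hV (U n) (hne n) (hmem n).1 (hmem n).2
  choose o ho using hcode
  obtain ⟨i, j, hij, hoij⟩ := Fintype.exists_ne_map_eq_of_card_lt (fun i : Fin (p + 2) => o i)
    (by simp)
  have main : ∀ i j : ℕ, i < j → j ≤ p + 1 → o i = o j →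
      Cong V (U (p + 1)) (U (p + 1 + (p + 1).factorial)) := by
    intro i j hij hj hoij
    have h1 : Cong V (U i) (U j) := by
      refine Cong.trans (hne i) (vec_ne (o i)) (hne j) (ho i) ?_
      rw [hoij]
      exact (ho j).symm
    have h2 : ∀ t, Cong V (U (i + t)) (U (j + t)) := by
      intro t
      induction t with
      | zero => exact h1
      | succ t ih =>
        rw [← add_assoc, ← add_assoc, hsucc, hsucc]
        exact Cong.lift hG (hne _) (hne _) ih
    have h3 : ∀ s, i ≤ s → Cong V (U s) (U (s + (j - i))) := by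
      intro s hs
      have := h2 (s - i)
      have e1 : i + (s - i) = s := by omega
      have e2 : j + (s - i) = s + (j - i) := by omega
      rwa [e1, e2] at this
    have h4 : ∀ k s, i ≤ s → Cong V (U s) (U (s + (j - i) * k)) := by
      intro k
      induction k with
      | zero => intro s _; exact Cong.refl (hne _)
      | succ k ih =>
        intro s hs
        refine Cong.trans (hne _) (hne _) (hne _) (ih s hs) ?_
        have := h3 (s + (j - i) * k) (by omega)
        have e1 : s + (j - i) * (k + 1) = s + (j - i) * k + (j - i) := by ring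
        rwa [e1]
    obtain ⟨k, hk⟩ : (j - i) ∣ (p + 1).factorial :=
      Nat.dvd_factorial (by omega) (by omega)
    rw [hk]
    exact h4 k (p + 1) (by omega)
  rcases Nat.lt_or_gt_of_ne (fun h => hij (Fin.ext h)) with h | h
  · exact main i j h (by omega) hoij
  · exact main j i h (by omega) hoij.symm

/-- the height inequality -/
theorem height_ineq {p : ℕ} (hp : p.Prime) (u w : Qb × Qb) (hne : wedge u w ≠ 0)
    (hu1 : u.1 ∈ TP p hp) (hu2 : u.2 ∈ TP p hp) (hw1 : w.1 ∈ TP p hp) (hw2 : w.2 ∈ TP p hp)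
    (hc : ∀ V : ValuationSubring Qb, Above p V → Cong V u w) :
    Real.log p - Real.log 2 ≤ absLogHeight ![u.1, u.2] + absLogHeight ![w.1, w.2] := by
  have hu0 : u ≠ 0 := by
    rintro rfl
    apply hne
    simp [wedge]
  have hw0 : w ≠ 0 := by
    rintro rfl
    apply hne
    simp [wedge]
  have hvec : ∀ u : Qb × Qb, u ≠ 0 → (![u.1, u.2] : Fin 2 → Qb) ≠ 0 := by
    intro u hu h
    apply hu
    have h1 := congrFun h 0
    have h2 := congrFun h 1
    simp only [Matrix.cons_val_zero, Matrix.cons_val_one, Pi.zero_apply] at h1 h2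
    exact Prod.ext h1 h2
  set D := wedge u w with hD
  set c : Qb := (p : Qb) * D⁻¹ with hcdef
  have hp0 : (p : Qb) ≠ 0 := by exact_mod_cast hp.ne_zero
  have hc0 : c ≠ 0 := mul_ne_zero hp0 (inv_ne_zero hne)
  clear_value c
  set W : Fin 2 × Fin 2 → Qb := fun a =>
    (![u.1, u.2] : Fin 2 → Qb) a.1 * (![w.1, w.2] : Fin 2 → Qb) a.2 with hW
  have hsm : absLogHeight (c • W) = absLogHeight W := absLogHeight_smul W hc0
  have h4 : absLogHeight W = absLogHeight ![u.1, u.2] + absLogHeight ![w.1, w.2] :=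
    absLogHeight_segre (hvec u hu0) (hvec w hw0)
  have key : Real.log (p / 2) ≤ absLogHeight (c • W) := by
    apply height_ge _ _ (by
      have := hp.pos
      positivity)
    · intro V
      obtain ⟨i, hi⟩ : ∃ i : Fin 2, V.valuation ((![u.1, u.2] : Fin 2 → Qb) i) = nm V u := by
        rcases le_total (V.valuation u.1) (V.valuation u.2) with h | h
        · exact ⟨1, (max_eq_right h).symm⟩
        · exact ⟨0, (max_eq_left h).symm⟩
      obtain ⟨j, hj⟩ : ∃ j : Fin 2, V.valuation ((![w.1, w.2] : Fin 2 → Qb) j) = nm V w := by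
        rcases le_total (V.valuation w.1) (V.valuation w.2) with h | h
        · exact ⟨1, (max_eq_right h).symm⟩
        · exact ⟨0, (max_eq_left h).symm⟩
      refine ⟨(i, j), ?_⟩
      have hvD : V.valuation D ≠ 0 := (Valuation.ne_zero_iff _).mpr hne
      have hqV : V.valuation (p : Qb) ≤ 1 := by
        rw [ValuationSubring.valuation_le_one_iff]
        exact natCast_mem V p
      have h6 : V.valuation D ≤ V.valuation (p : Qb) * (nm V u * nm V w) := by
        rcases lt_or_eq_of_le hqV with h | h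
        · -- `V` is above `p`
          have h7 := hc V h
          unfold Cong at h7
          set a := (![u.1, u.2] : Fin 2 → Qb) i with ha
          set b := (![w.1, w.2] : Fin 2 → Qb) j with hb
          have ham : a ∈ TP p hp := by
            rw [ha]
            fin_cases i
            · exact hu1
            · exact hu2
          have hbm : b ∈ TP p hp := by
            rw [hb]
            fin_cases j
            · exact hw1
            · exact hw2
          have ha0 : a ≠ 0 := by
            intro h0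
            rw [h0, map_zero] at hi
            exact (nm_pos V hu0).ne hi
          have hb0 : b ≠ 0 := by
            intro h0
            rw [h0, map_zero] at hj
            exact (nm_pos V hw0).ne hj
          have h8 : V.valuation (D / (a * b)) ≤ V.valuation (p : Qb) := by
            apply val_le_of_lt V hp h
            · apply div_mem _ (mul_mem ham hbm)
              exact sub_mem (mul_mem hu1 hw2) (mul_mem hu2 hw1)
            · rw [map_div₀, map_mul, hi, hj]
              rw [div_lt_one₀ (mul_pos (nm_pos V hu0) (nm_pos V hw0))]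
              exact h7
          rw [map_div₀, map_mul, hi, hj,
            div_le_iff₀ (mul_pos (nm_pos V hu0) (nm_pos V hw0))] at h8
          exact h8
        · rw [h, one_mul]
          refine (V.valuation.map_sub _ _).trans (max_le ?_ ?_)
          · rw [map_mul]
            exact mul_le_mul' (le_max_left _ _) (le_max_right _ _)
          · rw [map_mul]
            exact mul_le_mul' (le_max_right _ _) (le_max_left _ _)
      have hWij : W (i, j) = (![u.1, u.2] : Fin 2 → Qb) i * (![w.1, w.2] : Fin 2 → Qb) j := rfl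
      rw [Pi.smul_apply, smul_eq_mul, map_mul, hWij, map_mul, hi, hj, hcdef, map_mul, map_inv₀]
      calc (1 : V.ValueGroup) = (V.valuation D)⁻¹ * V.valuation D := (inv_mul_cancel₀ hvD).symm
        _ ≤ (V.valuation D)⁻¹ * (V.valuation (p : Qb) * (nm V u * nm V w)) :=
            mul_le_mul_right h6 _
        _ = _ := by
          rw [← mul_assoc, mul_comm (V.valuation D)⁻¹]
    · intro φ
      obtain ⟨i, hi⟩ : ∃ i : Fin 2, ‖φ ((![u.1, u.2] : Fin 2 → Qb) i)‖ = max ‖φ u.1‖ ‖φ u.2‖ := by
        rcases le_total ‖φ u.1‖ ‖φ u.2‖ with h | h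
        · exact ⟨1, (max_eq_right h).symm⟩
        · exact ⟨0, (max_eq_left h).symm⟩
      obtain ⟨j, hj⟩ : ∃ j : Fin 2, ‖φ ((![w.1, w.2] : Fin 2 → Qb) j)‖ = max ‖φ w.1‖ ‖φ w.2‖ := by
        rcases le_total ‖φ w.1‖ ‖φ w.2‖ with h | h
        · exact ⟨1, (max_eq_right h).symm⟩
        · exact ⟨0, (max_eq_left h).symm⟩
      refine ⟨(i, j), ?_⟩
      have hnD : 0 < ‖φ D‖ := norm_pos_iff.mpr (by
        intro h
        exact hne ((map_eq_zero φ).mp h))
      have hWij : W (i, j) = (![u.1, u.2] : Fin 2 → Qb) i * (![w.1, w.2] : Fin 2 → Qb) j := rfl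
      rw [Pi.smul_apply, smul_eq_mul, map_mul, norm_mul, hWij, map_mul, norm_mul, hi, hj, hcdef,
        map_mul, map_inv₀, map_natCast, norm_mul, Complex.norm_natCast, norm_inv]
      have h6 : ‖φ D‖ ≤ 2 * (max ‖φ u.1‖ ‖φ u.2‖ * max ‖φ w.1‖ ‖φ w.2‖) := by
        have h7 : ‖φ D‖ ≤ ‖φ u.1‖ * ‖φ w.2‖ + ‖φ u.2‖ * ‖φ w.1‖ := by
          rw [hD]
          unfold wedge
          rw [map_sub, map_mul, map_mul]
          refine (norm_sub_le _ _).trans ?_
          rw [norm_mul, norm_mul]
        have a1 : ‖φ u.1‖ ≤ max ‖φ u.1‖ ‖φ u.2‖ := le_max_left _ _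
        have a2 : ‖φ u.2‖ ≤ max ‖φ u.1‖ ‖φ u.2‖ := le_max_right _ _
        have a3 : ‖φ w.1‖ ≤ max ‖φ w.1‖ ‖φ w.2‖ := le_max_left _ _
        have a4 : ‖φ w.2‖ ≤ max ‖φ w.1‖ ‖φ w.2‖ := le_max_right _ _
        have b1 := mul_le_mul a1 a4 (norm_nonneg _) ((norm_nonneg _).trans a1)
        have b2 := mul_le_mul a2 a3 (norm_nonneg _) ((norm_nonneg _).trans a2)
        linarith
      have hp1 : (0 : ℝ) < p := by exact_mod_cast hp.pos
      rw [div_le_iff₀ (by positivity)]
      calc (p : ℝ) = p * ‖φ D‖⁻¹ * ‖φ D‖ := by field_simp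
        _ ≤ p * ‖φ D‖⁻¹ * (2 * (max ‖φ u.1‖ ‖φ u.2‖ * max ‖φ w.1‖ ‖φ w.2‖)) := by
          apply mul_le_mul_of_nonneg_left h6
          positivity
        _ = _ := by ring
  rw [hsm, h4, Real.log_div (by exact_mod_cast hp.ne_zero) (by norm_num)] at key
  exact key

end Pool.Agent.Q281.UN
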