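import Mathlib
import Pool.Agent.Q281.UN.Dyn2

set_option autoImplicit false

/-!
# A field with property (USB) and without the Northcott property

Fields are subfields of `AlgebraicClosure ℚ`, which are the intermediate fields of
`AlgebraicClosure ℚ` over `ℚ`. The field is the intersection of the fields of totally `p`-adic
numbers for a suitable sequence of primes `p`.
-/

namespace Pool.Agent.Q281.UN.USBNotN

open Polynomial OnePoint
open Pool.Agent.Helper259.AbsHt (absLogHeight)
open Pool.Agent.H58P (Qb ht)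
open Pool.Agent.H58W (hev lift absLogHeight_pair lift_iterate_mem)
open Pool.Agent.Q281.UN

/-- the absolute logarithmic Weil height on the projective line over the algebraic numbers:
it is `0` at infinity and Mathlib's `NumberField.absLogHeight₁` elsewhere -/
noncomputable def weilHeight (z : OnePoint (AlgebraicClosure ℚ)) : ℝ :=
  z.elim 0 fun x => NumberField.absLogHeight₁ x

/-- the degree of a rational function -/
noncomputable def degree (f : RatFunc (AlgebraicClosure ℚ)) : ℕ :=
  max f.num.natDegree f.denom.natDegree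

open Classical in
/-- the self-map of the projective line defined by a rational function -/
noncomputable def ratMap (f : RatFunc (AlgebraicClosure ℚ)) (z : OnePoint (AlgebraicClosure ℚ)) :
    OnePoint (AlgebraicClosure ℚ) :=
  z.elim
    (if f.denom.coeff (degree f) = 0 then ∞
      else ((f.num.coeff (degree f) / f.denom.coeff (degree f) : AlgebraicClosure ℚ) :
        OnePoint (AlgebraicClosure ℚ)))
    fun x => if f.denom.eval x = 0 then ∞
      else ((f.num.eval x / f.denom.eval x : AlgebraicClosure ℚ) : OnePoint (AlgebraicClosure ℚ))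

/-- `H` is the canonical height of `f` -/
def IsCanonicalHeight (f : RatFunc (AlgebraicClosure ℚ))
    (H : OnePoint (AlgebraicClosure ℚ) → ℝ) : Prop :=
  (∀ z, H (ratMap f z) = degree f * H z) ∧ ∃ C : ℝ, ∀ z, |H z - weilHeight z| ≤ C

/-- the preperiodic points: the forward orbit is finite -/
def PrePer (f : RatFunc (AlgebraicClosure ℚ)) : Set (OnePoint (AlgebraicClosure ℚ)) :=
  {z | (Set.range fun n : ℕ => (ratMap f)^[n] z).Finite}

/-- the points of the projective line over `F` -/
def P1 (F : IntermediateField ℚ (AlgebraicClosure ℚ)) : Set (OnePoint (AlgebraicClosure ℚ)) :=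
  {z | z = ∞ ∨ ∃ x ∈ F, z = (x : OnePoint (AlgebraicClosure ℚ))}

/-- the strong Bogomolov property relative to the canonical height `H` of `f` -/
def SB (F : IntermediateField ℚ (AlgebraicClosure ℚ)) (f : RatFunc (AlgebraicClosure ℚ))
    (H : OnePoint (AlgebraicClosure ℚ) → ℝ) : Prop :=
  (∃ c : ℝ, 0 < c ∧ ∀ z ∈ P1 F, z ∉ PrePer f → c ≤ H z) ∧ (P1 F ∩ PrePer f).Finite

/-- property (USB) -/
def USB (F : IntermediateField ℚ (AlgebraicClosure ℚ)) : Prop :=
  ∀ f : RatFunc (AlgebraicClosure ℚ), 2 ≤ degree f →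
    ∀ H : OnePoint (AlgebraicClosure ℚ) → ℝ, IsCanonicalHeight f H → SB F f H

/-- the Northcott property (N): the subsets of bounded height are finite -/
def Northcott (F : IntermediateField ℚ (AlgebraicClosure ℚ)) : Prop :=
  ∀ S : Set (AlgebraicClosure ℚ), (∀ x ∈ S, x ∈ F) →
    (∃ B : ℝ, ∀ x ∈ S, NumberField.absLogHeight₁ x ≤ B) → S.Finite

open Classical in
/-- the point of the projective line with the given homogeneous coordinates -/
noncomputable def cls (u : Qb × Qb) : OnePoint Qb :=
  if u.2 = 0 then ∞ else ((u.1 / u.2 : Qb) : OnePoint Qb)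

lemma ht_zero : ht 0 = 0 := by
  have h1 := absLogHeight_pair 1 0
  rw [div_zero] at h1
  have h2 := Pool.Agent.H58B.ht_pow 0 2
  rw [zero_pow two_ne_zero] at h2
  push_cast at h2
  linarith

lemma weilHeight_cls (u : Qb × Qb) :
    weilHeight (cls u) = absLogHeight ![u.1, u.2] := by
  rw [absLogHeight_pair]
  by_cases h : u.2 = 0
  · rw [cls, if_pos h, h, div_zero]
    exact ht_zero.symm
  · rw [cls, if_neg h]
    exact Pool.Agent.H58P.absLogHeight₁_eq _

lemma cls_eq (u w : Qb × Qb) (hu : u ≠ 0) (hw : w ≠ 0) (h : wedge u w = 0) : cls u = cls w := by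
  unfold wedge at h
  by_cases h1 : u.2 = 0
  · have hu1 : u.1 ≠ 0 := fun h2 => hu (Prod.ext h2 h1)
    have h2 : w.2 = 0 := by
      rw [h1, zero_mul, sub_zero] at h
      exact (mul_eq_zero.mp h).resolve_left hu1
    rw [cls, cls, if_pos h1, if_pos h2]
  · have h2 : w.2 ≠ 0 := by
      intro h2
      have hw1 : w.1 ≠ 0 := fun h3 => hw (Prod.ext h3 h2)
      rw [h2, mul_zero, zero_sub, neg_eq_zero] at h
      exact (mul_ne_zero h1 hw1) h
    rw [cls, cls, if_neg h1, if_neg h2]
    congr 1
    rw [div_eq_div_iff h1 h2]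
    linear_combination h

lemma wedge_eq (u w : Qb × Qb) (h : cls u = cls w) :
    wedge u w = 0 := by
  unfold wedge
  by_cases h1 : u.2 = 0
  · by_cases h2 : w.2 = 0
    · rw [h1, h2]; ring
    · rw [cls, cls, if_pos h1, if_neg h2] at h
      exact absurd h (OnePoint.infty_ne_coe _)
  · by_cases h2 : w.2 = 0
    · rw [cls, cls, if_neg h1, if_pos h2] at h
      exact absurd h (OnePoint.coe_ne_infty _)
    · rw [cls, cls, if_neg h1, if_neg h2, OnePoint.coe_eq_coe, div_eq_div_iff h1 h2] at h
      linear_combination h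

section map

variable (f : RatFunc (AlgebraicClosure ℚ))

/-- the lift of the map -/
noncomputable abbrev Lf : Qb × Qb → Qb × Qb := lift f.num f.denom (degree f)

lemma hev_div (P : Qb[X]) (d : ℕ) (hP : P.natDegree ≤ d) (x y : Qb) (hy : y ≠ 0) :
    hev P d x y = y ^ d * P.eval (x / y) := by
  have h := hev_smul P d y (x / y) 1
  rw [mul_div_cancel₀ _ hy, mul_one, hev_one P d hP] at h
  exact h

lemma hev_zero (P : Qb[X]) (d : ℕ) (x : Qb) : hev P d x 0 = P.coeff d * x ^ d := by
  unfold hev
  rw [Finset.sum_range_succ, Finset.sum_eq_zero]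
  · simp
  · intro i hi
    have := Finset.mem_range.mp hi
    rw [zero_pow (by omega), mul_zero]

lemma num_le : f.num.natDegree ≤ degree f := le_max_left _ _

lemma denom_le : f.denom.natDegree ≤ degree f := le_max_right _ _

lemma eval_ne (x : Qb) (h1 : f.num.eval x = 0) : f.denom.eval x ≠ 0 := by
  intro h2
  obtain ⟨a, b, hab⟩ := RatFunc.isCoprime_num_denom f
  have := congrArg (fun R : Qb[X] => R.eval x) hab
  simp [h1, h2] at this

lemma coeff_ne (hf : 2 ≤ degree f) (h1 : f.num.coeff (degree f) = 0) :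
    f.denom.coeff (degree f) ≠ 0 := by
  intro h2
  have hd : max f.num.natDegree f.denom.natDegree = degree f := rfl
  rcases le_total f.num.natDegree f.denom.natDegree with h | h
  · rw [max_eq_right h] at hd
    rw [← hd] at h2
    exact f.denom_ne_zero (leadingCoeff_eq_zero.mp h2)
  · rw [max_eq_left h] at hd
    rw [← hd] at h1
    have h3 : f.num = 0 := leadingCoeff_eq_zero.mp h1
    rw [h3, natDegree_zero] at hd
    omega

lemma Lf_ne (hf : 2 ≤ degree f) (u : Qb × Qb) (hu : u ≠ 0) : Lf f u ≠ 0 := by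
  intro h
  have h1 : hev f.num (degree f) u.1 u.2 = 0 := congrArg Prod.fst h
  have h2 : hev f.denom (degree f) u.1 u.2 = 0 := congrArg Prod.snd h
  by_cases hy : u.2 = 0
  · have hx : u.1 ≠ 0 := fun h3 => hu (Prod.ext h3 hy)
    rw [hy, hev_zero] at h1 h2
    have hx' := pow_ne_zero (degree f) hx
    exact coeff_ne f hf ((mul_eq_zero.mp h1).resolve_right hx')
      ((mul_eq_zero.mp h2).resolve_right hx')
  · rw [hev_div _ _ (num_le f) _ _ hy] at h1
    rw [hev_div _ _ (denom_le f) _ _ hy] at h2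
    have hy' := pow_ne_zero (degree f) hy
    exact eval_ne f _ ((mul_eq_zero.mp h1).resolve_left hy')
      ((mul_eq_zero.mp h2).resolve_left hy')

lemma ratMap_cls (u : Qb × Qb) (hu : u ≠ 0) : ratMap f (cls u) = cls (Lf f u) := by
  have e2 : (Lf f u).2 = hev f.denom (degree f) u.1 u.2 := rfl
  have e1 : (Lf f u).1 = hev f.num (degree f) u.1 u.2 := rfl
  by_cases hy : u.2 = 0
  · have hx : u.1 ≠ 0 := fun h3 => hu (Prod.ext h3 hy)
    have hx' := pow_ne_zero (degree f) hx
    rw [hy, hev_zero] at e1 e2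
    have h1 : cls u = ∞ := by rw [cls, if_pos hy]
    rw [h1]
    unfold ratMap
    rw [OnePoint.elim_infty, cls, e1, e2]
    by_cases h : f.denom.coeff (degree f) = 0
    · rw [if_pos h, if_pos (by rw [h, zero_mul])]
    · rw [if_neg h, if_neg (mul_ne_zero h hx'), mul_div_mul_right _ _ hx']
  · have hy' := pow_ne_zero (degree f) hy
    rw [hev_div _ _ (num_le f) _ _ hy] at e1
    rw [hev_div _ _ (denom_le f) _ _ hy] at e2
    have h1 : cls u = ((u.1 / u.2 : Qb) : OnePoint Qb) := by rw [cls, if_neg hy]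
    rw [h1]
    unfold ratMap
    rw [OnePoint.elim_some, cls, e1, e2]
    by_cases h : f.denom.eval (u.1 / u.2) = 0
    · rw [if_pos h, if_pos (by rw [h, mul_zero])]
    · rw [if_neg h, if_neg (mul_ne_zero hy' h), mul_div_mul_left _ _ hy']

lemma Lf_iterate_ne (hf : 2 ≤ degree f) (u : Qb × Qb) (hu : u ≠ 0) (n : ℕ) :
    (Lf f)^[n] u ≠ 0 := by
  induction n with
  | zero => exact hu
  | succ n ih =>
    rw [Function.iterate_succ_apply']
    exact Lf_ne f hf _ ih

lemma ratMap_iterate (hf : 2 ≤ degree f) (u : Qb × Qb) (hu : u ≠ 0) (n : ℕ) :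
    (ratMap f)^[n] (cls u) = cls ((Lf f)^[n] u) := by
  induction n with
  | zero => rfl
  | succ n ih =>
    rw [Function.iterate_succ_apply', Function.iterate_succ_apply', ih,
      ratMap_cls f _ (Lf_iterate_ne f hf u hu n)]

lemma H_iterate (H : OnePoint (AlgebraicClosure ℚ) → ℝ) (hH : IsCanonicalHeight f H)
    (z : OnePoint Qb) (n : ℕ) : H ((ratMap f)^[n] z) = (degree f : ℝ) ^ n * H z := by
  induction n with
  | zero => simp
  | succ n ih =>
    rw [Function.iterate_succ_apply', hH.1, ih, pow_succ]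
    ring

lemma H_prePer (hf : 2 ≤ degree f) (H : OnePoint (AlgebraicClosure ℚ) → ℝ)
    (hH : IsCanonicalHeight f H) (z : OnePoint Qb) (hz : z ∈ PrePer f) : H z = 0 := by
  by_contra hne
  have h1 : (Set.range fun n : ℕ => |H ((ratMap f)^[n] z)|).Finite := by
    have h2 := Set.Finite.image (fun w => |H w|) hz
    rw [← Set.range_comp] at h2
    exact h2
  obtain ⟨B, hB⟩ := h1.bddAbove
  have hpos : 0 < |H z| := abs_pos.mpr hne
  obtain ⟨n, hn⟩ := pow_unbounded_of_one_lt (B / |H z|) (show (1 : ℝ) < 2 by norm_num)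
  have h2 : |H ((ratMap f)^[n] z)| ≤ B := hB ⟨n, rfl⟩
  rw [H_iterate f H hH, abs_mul, abs_of_nonneg (by positivity : (0 : ℝ) ≤ (degree f : ℝ) ^ n)] at h2
  rw [div_lt_iff₀ hpos] at hn
  have h3 : (2 : ℝ) ^ n ≤ (degree f : ℝ) ^ n :=
    pow_le_pow_left₀ (by norm_num) (by exact_mod_cast hf) n
  have h4 := mul_le_mul_of_nonneg_right h3 hpos.le
  linarith

/-- the iterates as polynomials -/
noncomputable def LP : ℕ → Qb[X] × Qb[X]
  | 0 => (X, 1)
  | n + 1 => (∑ i ∈ Finset.range (degree f + 1),
      C (f.num.coeff i) * (LP n).1 ^ i * (LP n).2 ^ (degree f - i),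
      ∑ i ∈ Finset.range (degree f + 1),
      C (f.denom.coeff i) * (LP n).1 ^ i * (LP n).2 ^ (degree f - i))

lemma eval_LP (x : Qb) (n : ℕ) :
    ((LP f n).1.eval x, (LP f n).2.eval x) = (Lf f)^[n] (x, 1) := by
  induction n with
  | zero => simp [LP]
  | succ n ih =>
    rw [Function.iterate_succ_apply', ← ih]
    simp only [LP, Lf, lift, hev, eval_finsetSum, eval_mul, eval_pow, eval_C]

lemma ht_two_pow (k : ℕ) : k * Real.log 2 ≤ ht ((2 : Qb) ^ k) := by
  rw [← Real.log_pow]
  apply Pool.Agent.Q281.USB.height_ge _ _ (by positivity)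
  · intro V
    exact ⟨0, by simp⟩
  · intro φ
    refine ⟨1, ?_⟩
    have h : ‖φ 2‖ = 2 := by
      have h1 : φ 2 = 2 := map_ofNat φ 2
      rw [h1]
      simp
    simp [h]

open Classical in
lemma finite_coincidence (hf : 2 ≤ degree f) (H : OnePoint (AlgebraicClosure ℚ) → ℝ)
    (hH : IsCanonicalHeight f H) (M n : ℕ) (hn : 0 < n) :
    {x : Qb | (ratMap f)^[M] (x : OnePoint Qb) = (ratMap f)^[M + n] (x : OnePoint Qb)}.Finite := by
  set G : Qb[X] := (LP f M).1 * (LP f (M + n)).2 - (LP f M).2 * (LP f (M + n)).1 with hG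
  have hGx : ∀ x : Qb, G.eval x = wedge ((Lf f)^[M] (x, 1)) ((Lf f)^[M + n] (x, 1)) := by
    intro x
    rw [← eval_LP, ← eval_LP, hG]
    simp [wedge]
  have hx1 : ∀ x : Qb, ((x, 1) : Qb × Qb) ≠ 0 := by
    intro x h
    have := congrArg Prod.snd h
    simp at this
  have hcx : ∀ x : Qb, cls (x, 1) = (x : OnePoint Qb) := by
    intro x
    rw [cls, if_neg one_ne_zero]
    simp
  have hd2 : (2 : ℝ) ≤ degree f := by exact_mod_cast hf
  have hG0 : G ≠ 0 := by
    intro h0
    obtain ⟨C, hC⟩ := hH.2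
    have h1 : ∀ x : Qb, H (x : OnePoint Qb) = 0 := by
      intro x
      have h2 := hGx x
      rw [h0, eval_zero] at h2
      have h3 := cls_eq _ _ (Lf_iterate_ne f hf _ (hx1 x) _) (Lf_iterate_ne f hf _ (hx1 x) _) h2.symm
      rw [← ratMap_iterate f hf _ (hx1 x), ← ratMap_iterate f hf _ (hx1 x)] at h3
      have h4 := congrArg H h3
      rw [H_iterate f H hH, H_iterate f H hH, hcx, pow_add] at h4
      have h5 : (1 : ℝ) < (degree f : ℝ) ^ n := one_lt_pow₀ (by linarith) hn.ne'
      have h6 : (0 : ℝ) < (degree f : ℝ) ^ M := by positivity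
      have h7 : (degree f : ℝ) ^ M * (((degree f : ℝ) ^ n - 1) * H (x : OnePoint Qb)) = 0 := by
        linear_combination -h4
      have h8 := (mul_eq_zero.mp h7).resolve_left h6.ne'
      exact (mul_eq_zero.mp h8).resolve_left (by linarith)
    obtain ⟨k, hk⟩ := exists_nat_gt (C / Real.log 2)
    have hlog : 0 < Real.log 2 := Real.log_pos (by norm_num)
    rw [div_lt_iff₀ hlog] at hk
    have h2 := hC (((2 : Qb) ^ k : Qb) : OnePoint Qb)
    rw [h1, zero_sub, abs_neg] at h2
    have h3 : weilHeight (((2 : Qb) ^ k : Qb) : OnePoint Qb) = ht ((2 : Qb) ^ k) :=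
      Pool.Agent.H58P.absLogHeight₁_eq _
    rw [h3] at h2
    have h4 := ht_two_pow k
    have h5 := le_abs_self (ht ((2 : Qb) ^ k))
    linarith
  refine Set.Finite.subset (G.roots.toFinset.finite_toSet) ?_
  intro x hx
  rw [Set.mem_setOf_eq, ← hcx, ratMap_iterate f hf _ (hx1 x), ratMap_iterate f hf _ (hx1 x)] at hx
  have h1 := wedge_eq _ _ hx
  rw [← hGx] at h1
  rw [Finset.mem_coe, Multiset.mem_toFinset, mem_roots hG0]
  exact h1

end map

theorem usb_FS (p : ℕ → ℕ) (hp : ∀ n, (p n).Prime) (hn : ∀ n, n < p n)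
    (hall : ∀ x : Qb, ∃ k, ∀ j, k ≤ j → x ∈ TP (p j) (hp j)) : USB (FS p hp) := by
  intro f hf H hH
  obtain ⟨C, hC⟩ := hH.2
  have hd2 : (2 : ℝ) ≤ degree f := by exact_mod_cast hf
  -- choice of the prime
  obtain ⟨N, hN⟩ := exists_good f.num f.denom (degree f) rfl (by omega)
    (RatFunc.isCoprime_num_denom f)
  choose K hK using hall
  obtain ⟨e, he⟩ := exists_nat_gt (Real.exp (2 * C + Real.log 2))
  set k : ℕ := max (max N e) (max (f.num.support.sup fun i => K (f.num.coeff i))
    (f.denom.support.sup fun i => K (f.denom.coeff i))) with hk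
  have hcoef : ∀ P : Qb[X], (P.support.sup fun i => K (P.coeff i)) ≤ k →
      ∀ i, P.coeff i ∈ TP (p k) (hp k) := by
    intro P hP i
    by_cases hi : i ∈ P.support
    · exact hK _ k ((Finset.le_sup (f := fun i => K (P.coeff i)) hi).trans hP)
    · rw [notMem_support_iff.mp hi]
      exact zero_mem _
  have hnum := hcoef f.num ((le_max_left _ _).trans (le_max_right _ _))
  have hden := hcoef f.denom ((le_max_right _ _).trans (le_max_right _ _))
  have hNk : N < p k := ((le_max_left N e).trans (le_max_left _ _)).trans_lt (hn k)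
  have hek : e < p k := ((le_max_right N e).trans (le_max_left _ _)).trans_lt (hn k)
  have hlog : 2 * C + Real.log 2 < Real.log (p k) := by
    rw [Real.lt_log_iff_exp_lt (by exact_mod_cast (hp k).pos)]
    refine he.trans ?_
    exact_mod_cast hek
  have hGood := hN (p k) (hp k) hNk
  set q := p k with hq
  set M := q + 1 with hM
  set n := (q + 1).factorial with hnn
  have hnpos : 0 < n := Nat.factorial_pos _
  -- coordinates
  have hcoord : ∀ z ∈ P1 (FS p hp), ∃ u : Qb × Qb, u ≠ 0 ∧ cls u = z ∧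
      u.1 ∈ TP q (hp k) ∧ u.2 ∈ TP q (hp k) := by
    rintro z (rfl | ⟨x, hx, rfl⟩)
    · refine ⟨(1, 0), ?_, ?_, one_mem _, zero_mem _⟩
      · intro h
        have := congrArg Prod.fst h
        simp at this
      · rw [cls, if_pos rfl]
    · refine ⟨(x, 1), ?_, ?_, (mem_FS p hp x).mp hx k, one_mem _⟩
      · intro h
        have := congrArg Prod.snd h
        simp at this
      · rw [cls, if_neg one_ne_zero, div_one]
  -- the dichotomy
  have hdich : ∀ z ∈ P1 (FS p hp), (ratMap f)^[M] z = (ratMap f)^[M + n] z ∨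
      Real.log q - Real.log 2 - 2 * C ≤
        ((degree f : ℝ) ^ M + (degree f : ℝ) ^ (M + n)) * H z := by
    intro z hz
    obtain ⟨u, hu, rfl, hu1, hu2⟩ := hcoord z hz
    have hmem := lift_iterate_mem (TP q (hp k)) f.num f.denom (degree f) hnum hden u ⟨hu1, hu2⟩
    rw [ratMap_iterate f hf u hu, ratMap_iterate f hf u hu]
    by_cases hw : wedge ((Lf f)^[M] u) ((Lf f)^[M + n] u) = 0
    · left
      exact cls_eq _ _ (Lf_iterate_ne f hf u hu _) (Lf_iterate_ne f hf u hu _) hw
    · right
      have h1 := height_ineq (hp k) _ _ hw (hmem M).1 (hmem M).2 (hmem (M + n)).1 (hmem (M + n)).2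
        (fun V hV => pigeon (hp k) V hV (hGood V hV) u hu hmem)
      rw [← weilHeight_cls, ← weilHeight_cls,
        ← ratMap_iterate f hf u hu, ← ratMap_iterate f hf u hu] at h1
      have h2 := (abs_le.mp (hC ((ratMap f)^[M] (cls u)))).1
      have h3 := (abs_le.mp (hC ((ratMap f)^[M + n] (cls u)))).1
      rw [H_iterate f H hH] at h2 h3
      have h4 : ((degree f : ℝ) ^ M + (degree f : ℝ) ^ (M + n)) * H (cls u) =
        (degree f : ℝ) ^ M * H (cls u) + (degree f : ℝ) ^ (M + n) * H (cls u) := by ring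
      rw [h4]
      linarith
  have hS : 0 < (degree f : ℝ) ^ M + (degree f : ℝ) ^ (M + n) := by positivity
  refine ⟨⟨(Real.log q - Real.log 2 - 2 * C) / ((degree f : ℝ) ^ M + (degree f : ℝ) ^ (M + n)),
    div_pos (by linarith) hS, ?_⟩, ?_⟩
  · intro z hz hzp
    rcases hdich z hz with h | h
    · -- preperiodic
      exfalso
      apply hzp
      have h1 : ∀ t, (ratMap f)^[M + t] z = (ratMap f)^[M + t + n] z := by
        intro t
        have e1 : M + t = t + M := Nat.add_comm _ _
        have e2 : M + t + n = t + (M + n) := by ring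
        rw [e2, e1, Function.iterate_add_apply, h, ← Function.iterate_add_apply]
      refine Set.Finite.subset ((Set.finite_lt_nat (M + n)).image fun m => (ratMap f)^[m] z) ?_
      rintro _ ⟨m, rfl⟩
      show (ratMap f)^[m] z ∈ _
      induction m using Nat.strong_induction_on with
      | _ m ih =>
        rcases Nat.lt_or_ge m (M + n) with hm | hm
        · exact ⟨m, hm, rfl⟩
        · have h2 := h1 (m - n - M)
          have e1 : M + (m - n - M) = m - n := by omega
          have e2 : m - n + n = m := by omega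
          rw [e1, e2] at h2
          rw [← h2]
          exact ih (m - n) (by omega)
    · rw [div_le_iff₀ hS]
      linarith [mul_comm (H z) ((degree f : ℝ) ^ M + (degree f : ℝ) ^ (M + n))]
  · refine Set.Finite.subset (((finite_coincidence f hf H hH M n hnpos).image
      (fun x : Qb => (x : OnePoint Qb))).union (Set.finite_singleton ∞)) ?_
    rintro z ⟨hz, hzp⟩
    have h0 := H_prePer f hf H hH z hzp
    rcases hdich z hz with h | h
    · rcases hz with rfl | ⟨x, hx, rfl⟩
      · exact Or.inr rfl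
      · exact Or.inl ⟨x, h, rfl⟩
    · rw [h0, mul_zero] at h
      linarith

/-- there is a field with property (USB) which does not have the Northcott property -/
theorem result : ∃ F : IntermediateField ℚ (AlgebraicClosure ℚ), USB F ∧ ¬ Northcott F := by
  obtain ⟨p, hp, α, hn, hmem, hall, hht, hdeg⟩ := exists_seq
  refine ⟨FS p hp, usb_FS p hp hn hall, ?_⟩
  intro h
  have h1 := h (Set.range α) (by
    rintro _ ⟨k, rfl⟩
    exact (mem_FS p hp _).mpr (hmem k)) ⟨3, by
    rintro _ ⟨k, rfl⟩
    rw [Pool.Agent.H58P.absLogHeight₁_eq]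
    exact hht k⟩
  obtain ⟨B, hB⟩ := (h1.image fun x : Qb => (minpoly ℚ x).natDegree).bddAbove
  have h2 : (minpoly ℚ (α B)).natDegree ≤ B := hB ⟨α B, ⟨B, rfl⟩, rfl⟩
  have h3 := hdeg B
  omega

end Pool.Agent.Q281.UN.USBNotN
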